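import Pool.Agent.Y53.FP.Jump

/-!
The Cantor set of the subsums of an absolutely convergent series in a Banach space.
-/

set_option autoImplicit false
set_option linter.unusedSectionVars false

open Set Filter Topology

namespace Pool.Agent.Y53.FP

/-- `∑ w k` over the places `k` where `c` is true -/
noncomputable def bw (w : ℕ → ℝ) (c : ℕ → Bool) : ℝ := ∑' k, if c k then w k else 0

/-- the weights -/
noncomputable def wt (κ : ℝ) (k : ℕ) : ℝ := (1 / 2) ^ k + κ * (1 / 256) ^ k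

/-- the real number with digits `c` -/
noncomputable def tau (κ : ℝ) (c : ℕ → Bool) : ℝ := bw (wt κ) c

lemma summable_half : Summable fun k : ℕ => (1 / 2 : ℝ) ^ k :=
  summable_geometric_of_lt_one (by norm_num) (by norm_num)

lemma summable_256 : Summable fun k : ℕ => (1 / 256 : ℝ) ^ k :=
  summable_geometric_of_lt_one (by norm_num) (by norm_num)

lemma summable_wt (κ : ℝ) : Summable (wt κ) := summable_half.add (summable_256.mul_left κ)

lemma wt_nonneg {κ : ℝ} (h : 0 ≤ κ) (k : ℕ) : 0 ≤ wt κ k := by unfold wt; positivity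

lemma tsum_wt (κ : ℝ) : ∑' k, wt κ k = 2 + κ * (256 / 255) := by
  unfold wt
  rw [Summable.tsum_add summable_half (summable_256.mul_left κ), tsum_mul_left,
    tsum_geometric_of_lt_one (by norm_num) (by norm_num),
    tsum_geometric_of_lt_one (by norm_num) (by norm_num)]
  norm_num

lemma summable_ite {w : ℕ → ℝ} (hw : ∀ k, 0 ≤ w k) (h : Summable w) (c : ℕ → Bool) :
    Summable fun k => if c k then w k else 0 := by
  refine Summable.of_nonneg_of_le (fun k => ?_) (fun k => ?_) h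
  · split_ifs
    · exact hw k
    · exact le_rfl
  · split_ifs
    · exact le_rfl
    · exact hw k

lemma tau_nonneg {κ : ℝ} (h : 0 ≤ κ) (c : ℕ → Bool) : 0 ≤ tau κ c := by
  refine tsum_nonneg fun k => ?_
  split_ifs
  · exact wt_nonneg h k
  · exact le_rfl

lemma tau_le {κ : ℝ} (h : 0 ≤ κ) (h1 : κ ≤ 1) (c : ℕ → Bool) : tau κ c ≤ 4 := by
  have h2 : tau κ c ≤ ∑' k, wt κ k := by
    refine Summable.tsum_le_tsum (fun k => ?_) (summable_ite (wt_nonneg h) (summable_wt κ) c)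
      (summable_wt κ)
    split_ifs
    · exact le_rfl
    · exact wt_nonneg h k
  rw [tsum_wt] at h2
  linarith

lemma abs_tau_le {κ : ℝ} (h : 0 ≤ κ) (h1 : κ ≤ 1) (c : ℕ → Bool) : |tau κ c| ≤ 4 := by
  rw [abs_of_nonneg (tau_nonneg h c)]
  exact tau_le h h1 c

lemma continuous_tau {κ : ℝ} (h : 0 ≤ κ) : Continuous (tau κ) := by
  unfold tau bw
  refine continuous_tsum (u := wt κ) (fun k => ?_) (summable_wt κ) fun k c => ?_
  · exact (continuous_of_discreteTopology (f := fun t : Bool => if t then wt κ k else 0)).comp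
      (continuous_apply k)
  · rw [Real.norm_eq_abs]
    split_ifs
    · rw [abs_of_nonneg (wt_nonneg h k)]
    · rw [abs_zero]; exact wt_nonneg h k

lemma tau_lt {κ : ℝ} (h : 0 < κ) (c c' : ℕ → Bool) (k : ℕ) (hk : ∀ l < k, c l = c' l)
    (h1 : c k = true) (h2 : c' k = false) : tau κ c' < tau κ c := by
  have hs := summable_ite (wt_nonneg h.le) (summable_wt κ) c
  have hs' := summable_ite (wt_nonneg h.le) (summable_wt κ) c'
  have e1 := hs.sum_add_tsum_nat_add (k + 1)
  have e2 := hs'.sum_add_tsum_nat_add (k + 1)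
  rw [Finset.sum_range_succ, if_pos h1] at e1
  rw [Finset.sum_range_succ, if_neg (by rw [h2]; exact Bool.false_ne_true), add_zero] at e2
  have e3 : ∑ l ∈ Finset.range k, (if c l then wt κ l else 0) =
      ∑ l ∈ Finset.range k, (if c' l then wt κ l else 0) :=
    Finset.sum_congr rfl fun l hl => by rw [hk l (Finset.mem_range.1 hl)]
  have e4 : 0 ≤ ∑' l, (if c (l + (k + 1)) then wt κ (l + (k + 1)) else 0) := by
    refine tsum_nonneg fun l => ?_
    split_ifs
    · exact wt_nonneg h.le _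
    · exact le_rfl
  have hsw : Summable fun l => wt κ (l + (k + 1)) := (summable_nat_add_iff (k + 1)).2 (summable_wt κ)
  have e5 : ∑' l, (if c' (l + (k + 1)) then wt κ (l + (k + 1)) else 0) ≤
      ∑' l, wt κ (l + (k + 1)) := by
    refine Summable.tsum_le_tsum (fun l => ?_)
      ((summable_nat_add_iff (f := fun l => if c' l then wt κ l else 0) (k + 1)).2 hs') hsw
    split_ifs
    · exact le_rfl
    · exact wt_nonneg h.le _
  have e6 : ∑' l, wt κ (l + (k + 1)) = (1 / 2) ^ k + κ * ((1 / 256) ^ k / 255) := by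
    have h3 : ∀ l, wt κ (l + (k + 1)) = (1 / 2) ^ (k + 1) * (1 / 2) ^ l +
        (κ * (1 / 256) ^ (k + 1)) * (1 / 256) ^ l := by
      intro l
      unfold wt
      rw [pow_add, pow_add (1 / 256 : ℝ)]
      ring
    simp_rw [h3]
    rw [Summable.tsum_add (summable_half.mul_left _) (summable_256.mul_left _), tsum_mul_left,
      tsum_mul_left, tsum_geometric_of_lt_one (by norm_num) (by norm_num),
      tsum_geometric_of_lt_one (by norm_num) (by norm_num), pow_succ, pow_succ]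
    ring
  have e7 : wt κ k = (1 / 2) ^ k + κ * (1 / 256) ^ k := rfl
  have e8 : (0 : ℝ) < κ * (1 / 256) ^ k := by positivity
  show ∑' l, (if c' l then wt κ l else 0) < ∑' l, (if c l then wt κ l else 0)
  rw [← e1, ← e2, e3]
  have e9 : κ * ((1 / 256) ^ k / 255) = κ * (1 / 256) ^ k / 255 := by ring
  linarith

lemma tau_injective {κ : ℝ} (h : 0 < κ) : Function.Injective (tau κ) := by
  intro c c' hc
  by_contra hne
  have hex : ∃ k, c k ≠ c' k := by
    by_contra hcon
    push Not at hcon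
    exact hne (funext hcon)
  classical
  have h1 := Nat.find_spec hex
  have h2 : ∀ l < Nat.find hex, c l = c' l := fun l hl => by
    have := Nat.find_min hex hl
    push Not at this
    exact this
  rcases hb : c (Nat.find hex) with _ | _
  · have h3 : c' (Nat.find hex) = true := by
      rw [hb] at h1
      exact Bool.eq_true_of_not_eq_false (fun h => h1 h.symm)
    exact absurd hc (tau_lt h c' c _ (fun l hl => (h2 l hl).symm) h3 hb).ne
  · have h3 : c' (Nat.find hex) = false := by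
      rw [hb] at h1
      exact Bool.eq_false_of_not_eq_true (fun h => h1 h.symm)
    exact absurd hc (tau_lt h c c' _ h2 hb h3).ne'

/-- the digits of `r / 2 ^ n` -/
def gb (n r : ℕ) : ℕ → Bool := fun k => decide (k ≤ n) && Nat.testBit r (n - k)

lemma bw_gb (w : ℕ → ℝ) (n r : ℕ) : bw w (gb n r) = dg w n r := by
  unfold bw dg
  rw [tsum_eq_sum (s := Finset.range (n + 1))]
  · refine Finset.sum_congr rfl fun k hk => ?_
    have hk' : k ≤ n := Nat.lt_succ_iff.1 (Finset.mem_range.1 hk)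
    simp [gb, hk']
  · intro k hk
    have hk' : ¬ k ≤ n := fun h => hk (Finset.mem_range.2 (Nat.lt_succ_iff.2 h))
    simp [gb, hk']

lemma dg_wt (κ : ℝ) (n r : ℕ) : dg (wt κ) n r = dg (fun k => (1 / 2) ^ k) n r + κ * Jf n r := by
  unfold Jf dg wt
  rw [Finset.mul_sum, ← Finset.sum_add_distrib]
  refine Finset.sum_congr rfl fun k _ => ?_
  split_ifs
  · rfl
  · ring

lemma tau_gb (κ : ℝ) (n r : ℕ) (h : r < 2 ^ (n + 1)) :
    tau κ (gb n r) = r / 2 ^ n + κ * Jf n r := by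
  unfold tau
  rw [bw_gb, dg_wt, dg_half n r h]

section

variable {X : Type*} [NormedAddCommGroup X] [NormedSpace ℝ X] [CompleteSpace X]

/-- the subsums -/
noncomputable def Th (v : ℕ → X) (κ : ℕ → ℝ) (b : ℕ → ℕ → Bool) : X :=
  ∑' i, tau (κ i) (b i) • v i

variable {v : ℕ → X} {κ : ℕ → ℝ}

lemma norm_term_le (hκ : ∀ i, 0 ≤ κ i) (hκ1 : ∀ i, κ i ≤ 1) (b : ℕ → ℕ → Bool) (i : ℕ) :
    ‖tau (κ i) (b i) • v i‖ ≤ 4 * ‖v i‖ := by
  rw [norm_smul, Real.norm_eq_abs]
  exact mul_le_mul_of_nonneg_right (abs_tau_le (hκ i) (hκ1 i) _) (norm_nonneg _)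

lemma summable_term (hv : Summable fun i => ‖v i‖) (hκ : ∀ i, 0 ≤ κ i) (hκ1 : ∀ i, κ i ≤ 1)
    (b : ℕ → ℕ → Bool) : Summable fun i => tau (κ i) (b i) • v i :=
  Summable.of_norm_bounded (hv.mul_left 4) (norm_term_le hκ hκ1 b)

lemma continuous_Th (hv : Summable fun i => ‖v i‖) (hκ : ∀ i, 0 ≤ κ i) (hκ1 : ∀ i, κ i ≤ 1) :
    Continuous (Th v κ) := by
  unfold Th
  refine continuous_tsum (u := fun i => 4 * ‖v i‖) (fun i => ?_) (hv.mul_left 4)
    fun i b => norm_term_le hκ hκ1 b i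
  exact ((continuous_tau (hκ i)).comp (continuous_apply i)).smul continuous_const

lemma Th_sub (hv : Summable fun i => ‖v i‖) (hκ : ∀ i, 0 ≤ κ i) (hκ1 : ∀ i, κ i ≤ 1)
    (b b' : ℕ → ℕ → Bool) (m : ℕ) (h : ∀ i, m ≤ i → b i = b' i) :
    Th v κ b - Th v κ b' = ∑ i ∈ Finset.range m, (tau (κ i) (b i) - tau (κ i) (b' i)) • v i := by
  unfold Th
  rw [← Summable.tsum_sub (summable_term hv hκ hκ1 b) (summable_term hv hκ hκ1 b')]
  rw [tsum_eq_sum (s := Finset.range m)]
  · exact Finset.sum_congr rfl fun i _ => (sub_smul _ _ _).symm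
  · intro i hi
    rw [h i (not_lt.1 fun h => hi (Finset.mem_range.2 h)), sub_self]

/-- biorthogonal functionals recover the digits -/
lemma f_Th (hv : Summable fun i => ‖v i‖) (hκ : ∀ i, 0 ≤ κ i) (hκ1 : ∀ i, κ i ≤ 1)
    (f : ℕ → X →L[ℝ] ℝ) (hf : ∀ i j, f i (v j) = if i = j then 1 else 0) (b : ℕ → ℕ → Bool)
    (i : ℕ) : f i (Th v κ b) = tau (κ i) (b i) := by
  unfold Th
  rw [(f i).map_tsum (summable_term hv hκ hκ1 b), tsum_eq_single i]
  · rw [map_smul, hf, if_pos rfl, smul_eq_mul, mul_one]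
  · intro j hj
    rw [map_smul, hf, if_neg hj.symm, smul_zero]

/-- the parametrization by the Cantor space -/
noncomputable def Th' (v : ℕ → X) (κ : ℕ → ℝ) (b : ℕ → Bool) : X :=
  Th v κ fun i k => b (Nat.pair i k)

lemma continuous_Th' (hv : Summable fun i => ‖v i‖) (hκ : ∀ i, 0 ≤ κ i) (hκ1 : ∀ i, κ i ≤ 1) :
    Continuous (Th' v κ) :=
  (continuous_Th hv hκ hκ1).comp
    (continuous_pi fun _ => continuous_pi fun _ => continuous_apply _)

lemma Th'_injective (hv : Summable fun i => ‖v i‖) (hκ : ∀ i, 0 < κ i) (hκ1 : ∀ i, κ i ≤ 1)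
    (f : ℕ → X →L[ℝ] ℝ) (hf : ∀ i j, f i (v j) = if i = j then 1 else 0) :
    Function.Injective (Th' v κ) := by
  intro b b' h
  funext n
  have h1 := congrArg (f (Nat.unpair n).1) h
  unfold Th' at h1
  rw [f_Th hv (fun i => (hκ i).le) hκ1 f hf, f_Th hv (fun i => (hκ i).le) hκ1 f hf] at h1
  have h2 := congrFun (tau_injective (hκ _) h1) (Nat.unpair n).2
  simpa using h2

/-- the Cantor set -/
def Cs (v : ℕ → X) (κ : ℕ → ℝ) : Set X := Set.range (Th' v κ)

lemma Th_mem (b : ℕ → ℕ → Bool) : Th v κ b ∈ Cs v κ := by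
  refine ⟨fun n => b (Nat.unpair n).1 (Nat.unpair n).2, ?_⟩
  unfold Th'
  simp

lemma isCompact_Cs (hv : Summable fun i => ‖v i‖) (hκ : ∀ i, 0 ≤ κ i) (hκ1 : ∀ i, κ i ≤ 1) :
    IsCompact (Cs v κ) := isCompact_range (continuous_Th' hv hκ hκ1)

/-- the set of subsums is homeomorphic to the Cantor space -/
theorem homeo (hv : Summable fun i => ‖v i‖) (hκ : ∀ i, 0 < κ i) (hκ1 : ∀ i, κ i ≤ 1)
    (f : ℕ → X →L[ℝ] ℝ) (hf : ∀ i j, f i (v j) = if i = j then 1 else 0) :
    Nonempty (Cs v κ ≃ₜ (ℕ → Bool)) := by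
  have hinj := Th'_injective hv hκ hκ1 f hf
  let e : (ℕ → Bool) ≃ Cs v κ := Equiv.ofInjective _ hinj
  have he : Continuous e := by
    refine Continuous.subtype_mk (continuous_Th' hv (fun i => (hκ i).le) hκ1) _
  exact ⟨(he.homeoOfEquivCompactToT2).symm⟩

/-- the points of the grid of level `n` -/
noncomputable def P (v : ℕ → X) (κ : ℕ → ℝ) (n : ℕ) (r : ℕ → ℕ) : X :=
  Th v κ fun i => gb n (r i)

lemma P_mem (n : ℕ) (r : ℕ → ℕ) : P v κ n r ∈ Cs v κ := Th_mem _

lemma P_sub (hv : Summable fun i => ‖v i‖) (hκ : ∀ i, 0 ≤ κ i) (hκ1 : ∀ i, κ i ≤ 1)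
    (n : ℕ) (r r' : ℕ → ℕ) (m : ℕ) (h : ∀ i, m ≤ i → r i = r' i)
    (hr : ∀ i < m, r i < 2 ^ (n + 1)) (hr' : ∀ i < m, r' i < 2 ^ (n + 1)) :
    P v κ n r - P v κ n r' = ∑ i ∈ Finset.range m,
      (((r i : ℝ) - r' i) / 2 ^ n + κ i * (Jf n (r i) - Jf n (r' i))) • v i := by
  unfold P
  rw [Th_sub hv hκ hκ1 _ _ m (fun i hi => by rw [h i hi])]
  refine Finset.sum_congr rfl fun i hi => ?_
  have hi' := Finset.mem_range.1 hi
  rw [tau_gb _ _ _ (hr i hi'), tau_gb _ _ _ (hr' i hi')]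
  congr 1
  ring

end

end Pool.Agent.Y53.FP
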