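import Pool.Agent.Y53.FP.Grid
import Pool.Agent.Y53.FP.Cant

/-!
Averaged increments of a map on the Cantor set along the grids.
-/

set_option autoImplicit false
set_option linter.unusedSectionVars false

open Set Filter Topology

namespace Pool.Agent.Y53.FP

lemma sqrt_sum_le {ι : Type*} (s : Finset ι) (a : ι → ℝ) (h : ∀ i ∈ s, 0 ≤ a i) :
    √(∑ i ∈ s, a i) ≤ ∑ i ∈ s, √(a i) := by
  classical
  induction s using Finset.induction_on with
  | empty => simp
  | insert i s hi ih =>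
    rw [Finset.sum_insert hi, Finset.sum_insert hi]
    refine (sqrt_add_le _ _ (h i (Finset.mem_insert_self _ _))
      (Finset.sum_nonneg fun l hl => h l (Finset.mem_insert_of_mem hl))).trans ?_
    exact add_le_add le_rfl (ih fun l hl => h l (Finset.mem_insert_of_mem hl))

lemma rt_sum_le {ι : Type*} (s : Finset ι) (a : ι → ℝ) (h : ∀ i ∈ s, 0 ≤ a i) :
    rt (∑ i ∈ s, a i) ≤ ∑ i ∈ s, rt (a i) :=
  (Real.sqrt_le_sqrt (sqrt_sum_le s a h)).trans
    (sqrt_sum_le s _ fun _ _ => Real.sqrt_nonneg _)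

lemma G_major {Q : ℕ} (hQ : 0 < Q) (w : ℕ → A) (H c : ℝ) (n0 : ℕ) (β : ℕ → ℝ) (g : ℕ → ℕ → ℝ)
    (m : ℕ) (z : A) : G Q w (fun r => H * (c + ∑ i ∈ Finset.range n0, β i * g i (r i))) m z =
      H * (c + ∑ i ∈ Finset.range n0, β i * G Q w (fun r => g i (r i)) m z) := by
  have h1 : G Q w (fun r => H * (c + ∑ i ∈ Finset.range n0, β i * g i (r i))) m z =
      H * G Q w (fun r => c + ∑ i ∈ Finset.range n0, β i * g i (r i)) m z :=
    congrFun (G_smul Q w H (fun r => c + ∑ i ∈ Finset.range n0, β i * g i (r i)) m) z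
  have h2 : G Q w (fun r => c + ∑ i ∈ Finset.range n0, β i * g i (r i)) m z =
      G Q w (fun _ => c) m z + G Q w (fun r => ∑ i ∈ Finset.range n0, β i * g i (r i)) m z :=
    congrFun (G_add Q w (fun _ => c) (fun r => ∑ i ∈ Finset.range n0, β i * g i (r i)) m) z
  have h3 : G Q w (fun r => ∑ i ∈ Finset.range n0, β i * g i (r i)) m z =
      ∑ i ∈ Finset.range n0, G Q w (fun r => β i * g i (r i)) m z :=
    congrFun (G_sum Q w (Finset.range n0) (fun i (r : A) => β i * g i (r i)) m) z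
  have h4 : ∀ i, G Q w (fun r => β i * g i (r i)) m z =
      β i * G Q w (fun r => g i (r i)) m z := fun i =>
    congrFun (G_smul Q w (β i) (fun r => g i (r i)) m) z
  rw [h1, h2, h3, G_const hQ]
  simp only [h4]

lemma sum_ev (t : ℕ → ℕ) (m i : ℕ) :
    (∑ l ∈ Finset.range m, t l • ev l) i = if i < m then t i else 0 := by
  rw [Finset.sum_apply]
  simp [ev, Pi.single_apply]

lemma sum_upd (t : ℕ → ℕ) (j m i : ℕ) :
    (∑ l ∈ Finset.range m, t l • Function.update ev j 0 l) i =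
      if i < m ∧ i ≠ j then t i else 0 := by
  have h1 : ∑ l ∈ Finset.range m, t l • Function.update ev j 0 l =
      ∑ l ∈ Finset.range m, Function.update t j 0 l • ev l := by
    refine Finset.sum_congr rfl fun l _ => ?_
    rcases eq_or_ne l j with rfl | h
    · simp
    · rw [Function.update_of_ne h, Function.update_of_ne h]
  rw [h1, sum_ev]
  by_cases h2 : i < m
  · by_cases h3 : i = j
    · subst h3; simp
    · simp [h2, h3]
  · simp [h2]

section

variable {X : Type*} [NormedAddCommGroup X] [NormedSpace ℝ X] [CompleteSpace X]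
variable {Y : Type*} [NormedAddCommGroup Y] [NormedSpace ℝ Y]
variable {v : ℕ → X} {κ : ℕ → ℝ}

lemma dist_P (hv : Summable fun i => ‖v i‖) (hκ : ∀ i, 0 ≤ κ i) (hκ1 : ∀ i, κ i ≤ 1)
    (n n0 : ℕ) (r y y' : A) (hy : ∀ i, n0 ≤ i → y i = 0) (hy' : ∀ i, n0 ≤ i → y' i = 0)
    (hr : ∀ i < n0, r i + y i < 2 ^ (n + 1)) (hr' : ∀ i < n0, r i + y' i < 2 ^ (n + 1)) :
    ‖P v κ n (r + y) - P v κ n (r + y')‖ ≤
      ‖∑ i ∈ Finset.range n0, (((y i : ℝ) - y' i) / 2 ^ n) • v i‖ +
      ∑ i ∈ Finset.range n0, κ i * ‖v i‖ * |Jf n (r i + y i) - Jf n (r i + y' i)| := by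
  rw [P_sub hv hκ hκ1 n (r + y) (r + y') n0 (fun i hi => by
    show r i + y i = r i + y' i
    rw [hy i hi, hy' i hi]) hr hr']
  have h1 : ∑ i ∈ Finset.range n0, (((((r + y) i : ℕ) : ℝ) - ((r + y') i : ℕ)) / 2 ^ n +
      κ i * (Jf n ((r + y) i) - Jf n ((r + y') i))) • v i =
      ∑ i ∈ Finset.range n0, (((y i : ℝ) - y' i) / 2 ^ n) • v i +
      ∑ i ∈ Finset.range n0, (κ i * (Jf n (r i + y i) - Jf n (r i + y' i))) • v i := by
    rw [← Finset.sum_add_distrib]
    refine Finset.sum_congr rfl fun i _ => ?_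
    rw [← add_smul]
    congr 1
    simp only [Pi.add_apply, Nat.cast_add]
    ring
  rw [h1]
  refine (norm_add_le _ _).trans (add_le_add le_rfl ?_)
  refine (norm_sum_le _ _).trans (Finset.sum_le_sum fun i _ => ?_)
  rw [norm_smul, Real.norm_eq_abs, abs_mul, abs_of_nonneg (hκ i)]
  exact le_of_eq (by ring)

/-- small moves -/
lemma avg_B (hv : Summable fun i => ‖v i‖) (hκ : ∀ i, 0 ≤ κ i) (hκ1 : ∀ i, κ i ≤ 1)
    {Φ : X → Y} {H : ℝ} (hH0 : 0 ≤ H)
    (hH : ∀ s ∈ Cs v κ, ∀ s' ∈ Cs v κ, ‖Φ s - Φ s'‖ ≤ H * √‖s - s'‖)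
    (n m n0 : ℕ) (hn0 : n0 ≤ m) (K : ℕ → ℕ) (α : ℕ → ℝ)
    (hα : ∀ i, (K i : ℝ) / 2 ^ n ≤ α i) (hK : ∀ i, i < n0 → K i ≤ 2 ^ n)
    (j : ℕ) (hj : j < n0) (σ : ℕ) (hσ : σ < K j) (b : ℕ) (hb : b = 0 ∨ b = 2 ^ n) :
    ‖G (2 ^ n) (Function.update ev j 0) (fun r => Φ (P v κ n r)) m
        (∑ i ∈ Finset.range j, K i • ev i + σ • ev j + b • ev j) -
      G (2 ^ n) (Function.update ev j 0) (fun r => Φ (P v κ n r)) m (b • ev j)‖ ≤
      H * (√(∑ i ∈ Finset.range n0, α i * ‖v i‖) +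
        ∑ i ∈ Finset.range n0, √(κ i * ‖v i‖) * (6 * α i + √(α i))) := by
  have hQ : 0 < 2 ^ n := by positivity
  have hQr : (0 : ℝ) < 2 ^ n := by positivity
  set y : A := ∑ i ∈ Finset.range j, K i • ev i + σ • ev j with hy
  have hyi : ∀ i, y i = if i < j then K i else if i = j then σ else 0 := by
    intro i
    rw [hy, Pi.add_apply, sum_ev]
    rcases lt_trichotomy i j with h | rfl | h
    · rw [if_pos h, if_pos h]
      simp [ev_ne h.ne]
    · simp [ev_self]
    · rw [if_neg (by omega), if_neg (by omega), if_neg (by omega)]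
      simp [ev_ne h.ne']
  have hyK : ∀ i, y i ≤ K i := by
    intro i
    rw [hyi]
    split_ifs with h1 h2
    · exact le_rfl
    · subst h2; exact hσ.le
    · exact Nat.zero_le _
  have hy0 : ∀ i, n0 ≤ i → y i = 0 := by
    intro i hi
    rw [hyi, if_neg (by omega), if_neg (by omega)]
  have hα0 : ∀ i, 0 ≤ α i := fun i => le_trans (by positivity) (hα i)
  have hyα : ∀ i, (y i : ℝ) / 2 ^ n ≤ α i := fun i =>
    (div_le_div_of_nonneg_right (Nat.cast_le.2 (hyK i)) hQr.le).trans (hα i)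
  have hz : y + b • ev j = b • ev j + y := add_comm _ _
  rw [hz]
  suffices hs : ‖G (2 ^ n) (Function.update ev j 0) (fun r => Φ (P v κ n r)) m (b • ev j + y) -
      G (2 ^ n) (Function.update ev j 0) (fun r => Φ (P v κ n r)) m (b • ev j + 0)‖ ≤
      H * (√(∑ i ∈ Finset.range n0, α i * ‖v i‖) +
        ∑ i ∈ Finset.range n0, √(κ i * ‖v i‖) * (6 * α i + √(α i))) by
    rwa [add_zero] at hs
  refine (G_diff_le hQ (Function.update ev j 0)
    (ρ := fun r => H * (√(∑ i ∈ Finset.range n0, α i * ‖v i‖) +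
      ∑ i ∈ Finset.range n0, √(κ i * ‖v i‖) * (fun (i q : ℕ) => √|Jf n (q + y i) - Jf n q|) i (r i)))
    m (b • ev j) y 0 (fun t ht => ?_)).trans ?_
  · set r : A := b • ev j + ∑ i ∈ Finset.range m, t i • Function.update ev j 0 i with hr
    have hri : ∀ i, r i = if i = j then b else if i < m then t i else 0 := by
      intro i
      rw [hr, Pi.add_apply, sum_upd]
      by_cases h : i = j
      · subst h; simp [ev_self]
      · simp [h, ev_ne h]
    have hrb : ∀ i < n0, r i + y i < 2 ^ (n + 1) := by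
      intro i hi
      rw [hri, hyi, pow_succ]
      have h2 := ht i
      have h3 := hK i hi
      have h4 := hK j hj
      split_ifs <;> rcases hb with rfl | rfl <;> omega
    have hrb' : ∀ i < n0, r i + (0 : A) i < 2 ^ (n + 1) := by
      intro i hi
      have := hrb i hi
      simp only [Pi.zero_apply]
      omega
    refine (hH _ (P_mem _ _) _ (P_mem _ _)).trans ?_
    refine mul_le_mul_of_nonneg_left ?_ hH0
    have h5 := dist_P hv hκ hκ1 n n0 r y 0 hy0 (fun _ _ => rfl) hrb hrb'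
    have h6 : ‖∑ i ∈ Finset.range n0, (((y i : ℝ) - ((0 : A) i : ℕ)) / 2 ^ n) • v i‖ ≤
        ∑ i ∈ Finset.range n0, α i * ‖v i‖ := by
      refine (norm_sum_le _ _).trans (Finset.sum_le_sum fun i _ => ?_)
      rw [norm_smul, Real.norm_eq_abs]
      refine mul_le_mul_of_nonneg_right ?_ (norm_nonneg _)
      simp only [Pi.zero_apply, Nat.cast_zero, sub_zero]
      rw [abs_of_nonneg (by positivity)]
      exact hyα i
    have h7 : 0 ≤ ∑ i ∈ Finset.range n0, κ i * ‖v i‖ * |Jf n (r i + y i) - Jf n (r i + (0 : A) i)| :=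
      Finset.sum_nonneg fun i _ => mul_nonneg (mul_nonneg (hκ i) (norm_nonneg _)) (abs_nonneg _)
    have h8 : 0 ≤ ∑ i ∈ Finset.range n0, α i * ‖v i‖ :=
      Finset.sum_nonneg fun i _ => mul_nonneg (hα0 i) (norm_nonneg _)
    refine (Real.sqrt_le_sqrt (h5.trans (add_le_add h6 le_rfl))).trans ?_
    refine (sqrt_add_le _ _ h8 h7).trans (add_le_add le_rfl ?_)
    refine (sqrt_sum_le _ _ fun i _ =>
      mul_nonneg (mul_nonneg (hκ i) (norm_nonneg _)) (abs_nonneg _)).trans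
      (le_of_eq (Finset.sum_congr rfl fun i _ => ?_))
    rw [Real.sqrt_mul (mul_nonneg (hκ i) (norm_nonneg _))]
    rfl
  · refine (le_of_eq (G_major hQ (Function.update ev j 0) H
      (√(∑ i ∈ Finset.range n0, α i * ‖v i‖)) n0 (fun i => √(κ i * ‖v i‖))
      (fun (i q : ℕ) => √|Jf n (q + y i) - Jf n q|) m (b • ev j))).trans ?_
    refine mul_le_mul_of_nonneg_left (add_le_add le_rfl (Finset.sum_le_sum fun i hi => ?_)) hH0
    have hi' := Finset.mem_range.1 hi
    refine mul_le_mul_of_nonneg_left ?_ (Real.sqrt_nonneg _)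
    by_cases hij : i = j
    · subst hij
      rw [G_coord_ne hQ _ (fun q => √|Jf n (q + y i) - Jf n q|) i m (fun l _ => by
        rcases eq_or_ne l i with rfl | h
        · simp
        · rw [Function.update_of_ne h]; exact ev_ne h.symm)]
      have h1 : (b • ev i : A) i = b := by simp [ev_self]
      have h2 : y i = σ := by rw [hyi]; simp
      have h3 : |Jf n (b + σ) - Jf n b| = Jf n σ := by
        have h4 : σ < 2 ^ n := lt_of_lt_of_le hσ (hK i hi')
        have h5 : Jf n 0 = 0 := le_antisymm (by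
          have := Jf_le n 0 (by positivity); simpa using this) (Jf_nonneg _ _)
        rcases hb with rfl | rfl
        · rw [zero_add, h5, sub_zero, abs_of_nonneg (Jf_nonneg _ _)]
        · have h6 := Jf_top n 0 (by positivity)
          rw [add_zero, h5] at h6
          rw [Jf_top n σ h4, h6]
          simp [abs_of_nonneg (Jf_nonneg _ _)]
      simp only [h1, h2, h3]
      have h7 : Jf n σ ≤ α i := by
        refine (Jf_le n σ (by rw [pow_succ]; have := hK i hi'; omega)).trans ?_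
        have := hyα i
        rwa [h2] at this
      have h8 := Real.sqrt_le_sqrt h7
      have h9 := hα0 i
      linarith
    · rw [G_coord hQ _ (fun q => √|Jf n (q + y i) - Jf n q|) i m (by omega)
        (by rw [Function.update_of_ne hij]) (fun l hl => by
        rcases eq_or_ne l j with rfl | h
        · simp
        · rw [Function.update_of_ne h]; exact ev_ne hl.symm)]
      have h1 : (b • ev j : A) i = 0 := by simp [ev_ne hij]
      simp only [h1, zero_add]
      have h2 := sum_sqrt_le n (y i) ((hyK i).trans (hK i hi'))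
      have h3 : ((2 ^ n : ℕ) : ℝ)⁻¹ • ∑ q ∈ Finset.range (2 ^ n), √|Jf n (q + y i) - Jf n q| ≤
          6 * α i := by
        rw [smul_eq_mul, Nat.cast_pow, Nat.cast_ofNat]
        calc ((2 : ℝ) ^ n)⁻¹ * ∑ q ∈ Finset.range (2 ^ n), √|Jf n (q + y i) - Jf n q|
            ≤ ((2 : ℝ) ^ n)⁻¹ * (6 * y i) := mul_le_mul_of_nonneg_left h2 (by positivity)
          _ = 6 * ((y i : ℝ) / 2 ^ n) := by rw [div_eq_mul_inv]; ring
          _ ≤ 6 * α i := mul_le_mul_of_nonneg_left (hyα i) (by norm_num)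
      have h4 := Real.sqrt_nonneg (α i)
      linarith

lemma avg_coord (n m i : ℕ) (him : i < m) (g : ℕ → ℝ) :
    G (2 ^ n) ev (fun r => g (r i)) m 0 = ((2 : ℝ) ^ n)⁻¹ * ∑ q ∈ Finset.range (2 ^ n), g q := by
  rw [G_coord (by positivity) ev g i m him rfl (fun l hl => ev_ne hl.symm)]
  simp

/-- averages over all coordinates, general majorant -/
lemma avg_E (hv : Summable fun i => ‖v i‖) (hκ : ∀ i, 0 ≤ κ i) (hκ1 : ∀ i, κ i ≤ 1)
    {Φ : X → Y} (n m n0 : ℕ) (hn0 : n0 ≤ m) (N N' : ℕ → ℕ) (hN : ∀ i < n0, N i ≤ 2 ^ n)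
    (hN' : ∀ i < n0, N' i ≤ 2 ^ n) (hNN : ∀ i, N i = 0 ∨ N' i = 0) (H c : ℝ)
    (g : ℕ → ℝ → ℝ)
    (hΦ : ∀ s ∈ Cs v κ, ∀ s' ∈ Cs v κ, ∀ J : ℕ → ℝ, (∀ i, 0 ≤ J i) →
      ‖s - s'‖ ≤ ‖∑ i ∈ Finset.range n0, (((N i : ℝ) - N' i) / 2 ^ n) • v i‖ +
        ∑ i ∈ Finset.range n0, κ i * ‖v i‖ * J i →
      ‖Φ s - Φ s'‖ ≤ H * (c + ∑ i ∈ Finset.range n0, g i (J i))) :
    ‖G (2 ^ n) ev (fun r => Φ (P v κ n r)) m (∑ i ∈ Finset.range n0, N i • ev i) -
      G (2 ^ n) ev (fun r => Φ (P v κ n r)) m (∑ i ∈ Finset.range n0, N' i • ev i)‖ ≤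
    H * (c + ∑ i ∈ Finset.range n0, ((2 : ℝ) ^ n)⁻¹ *
      ∑ q ∈ Finset.range (2 ^ n), g i |Jf n (q + (N i + N' i)) - Jf n q|) := by
  have hQ : 0 < 2 ^ n := by positivity
  have h0 : (∑ i ∈ Finset.range n0, N i • ev i : A) = 0 + ∑ i ∈ Finset.range n0, N i • ev i :=
    (zero_add _).symm
  have h0' : (∑ i ∈ Finset.range n0, N' i • ev i : A) = 0 + ∑ i ∈ Finset.range n0, N' i • ev i :=
    (zero_add _).symm
  rw [h0, h0']
  refine (G_diff_le hQ ev (ρ := fun r => H * (c + ∑ i ∈ Finset.range n0,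
      (fun _ => (1 : ℝ)) i * (fun (i q : ℕ) => g i |Jf n (q + (N i + N' i)) - Jf n q|) i (r i)))
    m 0 _ _ fun t ht => ?_).trans ?_
  · rw [zero_add]
    set r : A := ∑ i ∈ Finset.range m, t i • ev i with hr
    have hri : ∀ i, r i < 2 ^ n := by
      intro i
      rw [hr, sum_ev]
      split_ifs
      · exact ht i
      · exact hQ
    have hyi : ∀ K : ℕ → ℕ, ∀ i, n0 ≤ i → (∑ i ∈ Finset.range n0, K i • ev i : A) i = 0 := by
      intro K i hi
      rw [sum_ev, if_neg (by omega)]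
    have hyi' : ∀ K : ℕ → ℕ, ∀ i < n0, (∑ i ∈ Finset.range n0, K i • ev i : A) i = K i := by
      intro K i hi
      rw [sum_ev, if_pos hi]
    have hb : ∀ K : ℕ → ℕ, (∀ i < n0, K i ≤ 2 ^ n) → ∀ i < n0,
        r i + (∑ i ∈ Finset.range n0, K i • ev i : A) i < 2 ^ (n + 1) := by
      intro K hK i hi
      rw [hyi' K i hi, pow_succ]
      have := hri i
      have := hK i hi
      omega
    simp only [one_mul]
    refine hΦ _ (P_mem _ _) _ (P_mem _ _) (fun i => |Jf n (r i + (N i + N' i)) - Jf n (r i)|)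
      (fun i => abs_nonneg _) ?_
    refine (dist_P hv hκ hκ1 n n0 r _ _ (hyi N) (hyi N') (hb N hN) (hb N' hN')).trans
      (le_of_eq ?_)
    congr 1
    · congr 1
      refine Finset.sum_congr rfl fun i hi => ?_
      rw [hyi' N i (Finset.mem_range.1 hi), hyi' N' i (Finset.mem_range.1 hi)]
    · refine Finset.sum_congr rfl fun i hi => ?_
      rw [hyi' N i (Finset.mem_range.1 hi), hyi' N' i (Finset.mem_range.1 hi)]
      congr 1
      rcases hNN i with h | h
      · rw [h, add_zero, zero_add, abs_sub_comm]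
      · rw [h, add_zero, add_zero]
  · refine le_of_eq ((G_major hQ ev H c n0 (fun _ => (1 : ℝ))
      (fun (i q : ℕ) => g i |Jf n (q + (N i + N' i)) - Jf n q|) m 0).trans ?_)
    congr 2
    refine Finset.sum_congr rfl fun i hi => ?_
    rw [one_mul, avg_coord n m i (lt_of_lt_of_le (Finset.mem_range.1 hi) hn0)
      (fun q => g i |Jf n (q + (N i + N' i)) - Jf n q|)]

end

end Pool.Agent.Y53.FP
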