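import Pool.Agent.Y53.FP.Null

/-!
Biorthogonal systems whose linear span contains a given sequence.
-/

set_option autoImplicit false
set_option linter.unusedSectionVars false

open Set Filter Topology
open Pool.Agent.H548R3.PFree

namespace Pool.Agent.Y53.FP

section

variable {X : Type*} [NormedAddCommGroup X] [NormedSpace ℝ X]

/-- biorthogonality of the first `n` members -/
def Bi (n : ℕ) (p : (ℕ → X) × (ℕ → X →L[ℝ] ℝ)) : Prop :=
  ∀ i < n, ∀ j < n, p.2 i (p.1 j) = if i = j then 1 else 0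

lemma bi_step (hX : ¬ FiniteDimensional ℝ X) (y : X) (n : ℕ)
    (p : (ℕ → X) × (ℕ → X →L[ℝ] ℝ)) (hp : Bi n p) :
    ∃ p' : (ℕ → X) × (ℕ → X →L[ℝ] ℝ), Bi (n + 1) p' ∧
      (∀ i < n, p'.1 i = p.1 i ∧ p'.2 i = p.2 i) ∧
      y ∈ Submodule.span ℝ (p'.1 '' {i | i < n + 1}) := by
  set W : Submodule ℝ X := Submodule.span ℝ (p.1 '' {i | i < n}) with hW
  have hWfin : FiniteDimensional ℝ W :=
    FiniteDimensional.span_of_finite ℝ ((Set.finite_lt_nat n).image _)
  have hWtop : ∃ u, u ∉ W := by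
    by_contra hcon
    push Not at hcon
    have h1 : W = ⊤ := by
      rw [eq_top_iff]
      exact fun u _ => hcon u
    refine hX ?_
    rw [h1] at hWfin
    exact LinearEquiv.finiteDimensional (Submodule.topEquiv (R := ℝ) (M := X))
  obtain ⟨u, hu, huy⟩ : ∃ u, u ∉ W ∧ (y ∉ W → u = y) := by
    by_cases hy : y ∈ W
    · obtain ⟨u, hu⟩ := hWtop
      exact ⟨u, hu, fun h => absurd hy h⟩
    · exact ⟨y, hy, fun _ => rfl⟩
  set w : X := u - ∑ i ∈ Finset.range n, p.2 i u • p.1 i with hw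
  have hsW : ∑ i ∈ Finset.range n, p.2 i u • p.1 i ∈ W :=
    Submodule.sum_mem _ fun i hi => Submodule.smul_mem _ _
      (Submodule.subset_span ⟨i, Finset.mem_range.1 hi, rfl⟩)
  have hw0 : w ≠ 0 := by
    intro h
    rw [hw, sub_eq_zero] at h
    rw [h] at hu
    exact hu hsW
  obtain ⟨g', hg'⟩ : ∃ g' : X →L[ℝ] ℝ, g' w = 1 := by
    obtain ⟨g, -, hg⟩ := exists_dual_vector ℝ w (norm_ne_zero_iff.2 hw0)
    refine ⟨‖w‖⁻¹ • g, ?_⟩
    show ‖w‖⁻¹ • g w = 1
    rw [hg, smul_eq_mul]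
    exact inv_mul_cancel₀ (norm_ne_zero_iff.2 hw0)
  set F : X →L[ℝ] ℝ := g' - ∑ i ∈ Finset.range n, g' (p.1 i) • p.2 i with hF
  have hfw : ∀ i < n, p.2 i w = 0 := by
    intro i hi
    rw [hw, map_sub, map_sum, Finset.sum_eq_single i]
    · rw [map_smul, hp i hi i hi, if_pos rfl, smul_eq_mul, mul_one, sub_self]
    · intro j hj hji
      rw [map_smul, hp i hi j (Finset.mem_range.1 hj), if_neg hji.symm, smul_zero]
    · intro h; exact absurd (Finset.mem_range.2 hi) h
  have hFap : ∀ z, F z = g' z - ∑ i ∈ Finset.range n, g' (p.1 i) * p.2 i z := by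
    intro z
    rw [hF, ContinuousLinearMap.sub_apply, ContinuousLinearMap.sum_apply]
    rfl
  have hFw : F w = 1 := by
    rw [hFap, hg', Finset.sum_eq_zero, sub_zero]
    intro i hi
    rw [hfw i (Finset.mem_range.1 hi), mul_zero]
  have hFv : ∀ j < n, F (p.1 j) = 0 := by
    intro j hj
    rw [hFap, Finset.sum_eq_single j]
    · rw [hp j hj j hj, if_pos rfl, mul_one, sub_self]
    · intro i hi hij
      rw [hp i (Finset.mem_range.1 hi) j hj, if_neg hij, mul_zero]
    · intro h; exact absurd (Finset.mem_range.2 hj) h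
  refine ⟨(Function.update p.1 n w, Function.update p.2 n F), ?_, ?_, ?_⟩
  · intro i hi j hj
    show Function.update p.2 n F i (Function.update p.1 n w j) = _
    rcases Nat.lt_succ_iff_lt_or_eq.1 hi with hi' | rfl
    · rw [Function.update_of_ne hi'.ne]
      rcases Nat.lt_succ_iff_lt_or_eq.1 hj with hj' | rfl
      · rw [Function.update_of_ne hj'.ne]
        exact hp i hi' j hj'
      · rw [Function.update_self, hfw i hi', if_neg hi'.ne]
    · rw [Function.update_self]
      rcases Nat.lt_succ_iff_lt_or_eq.1 hj with hj' | rfl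
      · rw [Function.update_of_ne hj'.ne, hFv j hj', if_neg hj'.ne']
      · rw [Function.update_self, hFw, if_pos rfl]
  · intro i hi
    exact ⟨Function.update_of_ne hi.ne _ _, Function.update_of_ne hi.ne _ _⟩
  · show y ∈ Submodule.span ℝ (Function.update p.1 n w '' {i | i < n + 1})
    have hle : W ≤ Submodule.span ℝ (Function.update p.1 n w '' {i | i < n + 1}) := by
      rw [hW, Submodule.span_le]
      rintro _ ⟨i, hi, rfl⟩
      have hi' : i < n := hi
      refine Submodule.subset_span ⟨i, Nat.lt_succ_of_lt hi', ?_⟩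
      exact Function.update_of_ne hi'.ne _ _
    by_cases hy : y ∈ W
    · exact hle hy
    · have h1 := huy hy
      have h2 : y = w + ∑ i ∈ Finset.range n, p.2 i u • p.1 i := by rw [hw, h1]; abel
      rw [h2]
      refine Submodule.add_mem _ (Submodule.subset_span ⟨n, Nat.lt_succ_self n, ?_⟩) (hle hsW)
      exact Function.update_self _ _ _

/-- a biorthogonal system whose span contains a given sequence -/
theorem exists_biorth (hX : ¬ FiniteDimensional ℝ X) (y : ℕ → X) :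
    ∃ (v : ℕ → X) (f : ℕ → X →L[ℝ] ℝ), (∀ i j, f i (v j) = if i = j then 1 else 0) ∧
      ∀ n, y n ∈ Submodule.span ℝ (Set.range v) := by
  have step : ∀ (n : ℕ) (p : {p : (ℕ → X) × (ℕ → X →L[ℝ] ℝ) // Bi n p}),
      ∃ p' : {p : (ℕ → X) × (ℕ → X →L[ℝ] ℝ) // Bi (n + 1) p},
      (∀ i < n, p'.1.1 i = p.1.1 i ∧ p'.1.2 i = p.1.2 i) ∧
      y n ∈ Submodule.span ℝ (p'.1.1 '' {i | i < n + 1}) := by
    intro n p
    obtain ⟨p', h1, h2, h3⟩ := bi_step hX (y n) n p.1 p.2
    exact ⟨⟨p', h1⟩, h2, h3⟩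
  choose nx h1 h2 using step
  let q : (n : ℕ) → {p : (ℕ → X) × (ℕ → X →L[ℝ] ℝ) // Bi n p} := fun n =>
    Nat.rec ⟨(fun _ => 0, fun _ => 0), fun i hi => absurd hi (Nat.not_lt_zero i)⟩
      (fun n p => nx n p) n
  have hq : ∀ n, q (n + 1) = nx n (q n) := fun n => rfl
  have hagree : ∀ m i, i < m → (q m).1.1 i = (q (i + 1)).1.1 i ∧
      (q m).1.2 i = (q (i + 1)).1.2 i := by
    intro m
    induction m with
    | zero => intro i hi; omega
    | succ m ih =>
      intro i hi
      rcases Nat.lt_succ_iff_lt_or_eq.1 hi with h | rfl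
      · have h3 := h1 m (q m) i h
        rw [← hq] at h3
        exact ⟨h3.1.trans (ih i h).1, h3.2.trans (ih i h).2⟩
      · exact ⟨rfl, rfl⟩
  refine ⟨fun i => (q (i + 1)).1.1 i, fun i => (q (i + 1)).1.2 i, fun i j => ?_, fun n => ?_⟩
  · have h3 := hagree (max i j + 1) i (by omega)
    have h4 := hagree (max i j + 1) j (by omega)
    show (q (i + 1)).1.2 i ((q (j + 1)).1.1 j) = _
    rw [← h3.2, ← h4.1]
    exact (q (max i j + 1)).2 i (by omega) j (by omega)
  · refine Submodule.span_mono ?_ (h2 n (q n))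
    rintro _ ⟨i, hi, rfl⟩
    have hi' : i < n + 1 := hi
    exact ⟨i, ((hagree (n + 1) i hi').1).symm⟩

end

/-- The test data. -/
theorem exists_data {X : Type} [NormedAddCommGroup X] [NormedSpace ℝ X]
    (hX : ¬ HasAP 1 X) : ∃ (v : ℕ → X) (f : ℕ → X →L[ℝ] ℝ) (J : Type) (_ : Countable J)
      (N : J → ℕ) (a : J → ℕ → ℝ), (Summable fun i => ‖v i‖) ∧
      (∀ i j, f i (v j) = if i = j then 1 else 0) ∧
      Tendsto (fun j => ∑ i ∈ Finset.range (N j), a j i • v i) cofinite (𝓝 0) ∧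
      ∀ T : X →L[ℝ] X, FiniteDimensional ℝ (LinearMap.range (T : X →ₗ[ℝ] X)) →
        ∃ j, 1 < ‖T (∑ i ∈ Finset.range (N j), a j i • v i) -
          ∑ i ∈ Finset.range (N j), a j i • v i‖ := by
  have hfd : ¬ FiniteDimensional ℝ X := by
    intro h
    refine hX fun K _ ε hε => ⟨ContinuousLinearMap.id ℝ X, inferInstance, fun z _ => ?_⟩
    simpa [pnorm] using hε
  obtain ⟨J, hJ, x, hx, hT⟩ := exists_null hX
  obtain ⟨y, hy⟩ : ∃ y : ℕ → X, ∀ j, ∃ n, y n = x j := by
    rcases isEmpty_or_nonempty J with h | h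
    · exact ⟨fun _ => 0, fun j => h.elim j⟩
    · obtain ⟨g, hg⟩ := exists_surjective_nat J
      exact ⟨fun n => x (g n), fun j => by
        obtain ⟨n, hn⟩ := hg j
        exact ⟨n, congrArg x hn⟩⟩
  obtain ⟨v0, f0, hbi, hspan⟩ := exists_biorth hfd y
  let c : ℕ → ℝ := fun i => (1 / 2) ^ i / (1 + ‖v0 i‖)
  have hc : ∀ i, 0 < c i := fun i => by positivity
  let v : ℕ → X := fun i => c i • v0 i
  have hv : ∀ i, ‖v i‖ ≤ (1 / 2) ^ i := by
    intro i
    show ‖c i • v0 i‖ ≤ _
    rw [norm_smul, Real.norm_of_nonneg (hc i).le]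
    simp only [c]
    rw [div_mul_eq_mul_div, div_le_iff₀ (by positivity)]
    refine mul_le_mul_of_nonneg_left ?_ (by positivity)
    linarith
  have hsp : Submodule.span ℝ (Set.range v0) ≤ Submodule.span ℝ (Set.range v) := by
    rw [Submodule.span_le]
    rintro _ ⟨i, rfl⟩
    have h1 : v0 i = (c i)⁻¹ • v i := by
      show _ = (c i)⁻¹ • (c i • v0 i)
      rw [smul_smul, inv_mul_cancel₀ (hc i).ne', one_smul]
    rw [h1]
    exact Submodule.smul_mem _ _ (Submodule.subset_span ⟨i, rfl⟩)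
  have hex : ∀ j, ∃ (n : ℕ) (b : ℕ → ℝ), x j = ∑ i ∈ Finset.range n, b i • v i := by
    intro j
    obtain ⟨n0, hn0⟩ := hy j
    have hmem : x j ∈ Submodule.span ℝ (Set.range v) := by
      rw [← hn0]
      exact hsp (hspan n0)
    obtain ⟨b, hb⟩ := Finsupp.mem_span_range_iff_exists_finsupp.1 hmem
    obtain ⟨n, hn⟩ := b.support.exists_nat_subset_range
    refine ⟨n, b, ?_⟩
    rw [← hb]
    exact Finsupp.sum_of_support_subset b hn _ (fun i _ => zero_smul _ _)
  choose N a ha using hex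
  refine ⟨v, fun i => (c i)⁻¹ • f0 i, J, hJ, N, a, ?_, ?_, ?_, ?_⟩
  · exact Summable.of_nonneg_of_le (fun i => norm_nonneg _) hv
      (summable_geometric_of_lt_one (by norm_num) (by norm_num))
  · intro i j
    show (c i)⁻¹ • f0 i (c j • v0 j) = _
    rw [map_smul, hbi]
    by_cases h : i = j
    · subst h
      rw [if_pos rfl, smul_eq_mul, smul_eq_mul, mul_one]
      exact inv_mul_cancel₀ (hc i).ne'
    · simp [h]
  · exact hx.congr ha
  · intro T hTf
    obtain ⟨j, hj⟩ := hT T hTf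
    exact ⟨j, by rwa [← ha j]⟩

end Pool.Agent.Y53.FP
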