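import Pool.Agent.H548R3.PAP

/-!
The approximation property controls increments: for maps from a compact space into a `p`-normed
space with the approximation property.
-/

set_option autoImplicit false
set_option linter.unusedSectionVars false

open Set Filter Topology
open Pool.Agent.H548R3.PFree

namespace Pool.Agent.Y53.FP

/-- Control of increments at countably many scales by one finite rank operator. -/
theorem control {p : ℝ} {Z : Type} [NormedAddCommGroup Z] [Module ℝ Z]
    (hp : 0 < p) (hZ : ∀ (a : ℝ) (z : Z), ‖a • z‖ = |a| ^ p * ‖z‖)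
    {X : Type*} [NormedAddCommGroup X] [NormedSpace ℝ X]
    {S : Type*} [MetricSpace S] [CompactSpace S] (δ : S → Z) {C : ℝ} (hC : 0 ≤ C)
    (hδ : ∀ s s', ‖δ s - δ s'‖ ≤ (C * dist s s') ^ p) (β : Z →L[ℝ] X)
    {A : Type*} (c ρ : A → ℝ) (hc : ∀ α, 0 < c α)
    (hcρ : Tendsto (fun α => c α * ρ α) cofinite (𝓝 0)) (hAP : HasAP p Z) {ε : ℝ} (hε : 0 < ε) :
    ∃ T' : Z →L[ℝ] Z, FiniteDimensional ℝ (LinearMap.range (T' : Z →ₗ[ℝ] Z)) ∧
      ∀ α s s', dist s s' ≤ ρ α → ‖β (T' (δ s - δ s')) - β (δ s - δ s')‖ ≤ ε / c α := by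
  have hδc : Continuous δ := by
    rw [continuous_iff_continuousAt]
    intro x
    rw [ContinuousAt, tendsto_iff_norm_sub_tendsto_zero]
    have h1 : Tendsto (fun y => (C * dist y x) ^ p) (𝓝 x) (𝓝 ((C * dist x x) ^ p)) := by
      have hcont : Continuous fun y : S => (C * dist y x) ^ p := by
        refine Continuous.rpow_const (by fun_prop) fun _ => Or.inr hp.le
      exact hcont.tendsto x
    rw [dist_self, mul_zero, Real.zero_rpow hp.ne'] at h1
    exact squeeze_zero (fun _ => norm_nonneg _) (fun y => hδ y x) h1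
  let K : A → Set Z := fun α =>
    (fun q : S × S => c α • (δ q.1 - δ q.2)) '' {q | dist q.1 q.2 ≤ ρ α}
  have hK : ∀ α, IsCompact (K α) := fun α => by
    refine IsCompact.image ?_ ((continuous_const_smul' hp hZ _).comp (by fun_prop))
    exact (isClosed_le (by fun_prop) continuous_const).isCompact
  have hKn : ∀ α, ∀ z ∈ K α, ‖z‖ ≤ (C * |c α * ρ α|) ^ p := by
    rintro α _ ⟨⟨s, s'⟩, hs, rfl⟩
    show ‖c α • (δ s - δ s')‖ ≤ _
    have hs' : dist s s' ≤ ρ α := hs
    rw [hZ, abs_of_pos (hc α)]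
    calc c α ^ p * ‖δ s - δ s'‖ ≤ c α ^ p * (C * dist s s') ^ p :=
          mul_le_mul_of_nonneg_left (hδ s s') (Real.rpow_nonneg (hc α).le _)
      _ = (c α * (C * dist s s')) ^ p := by
          rw [Real.mul_rpow (hc α).le (mul_nonneg hC dist_nonneg)]
      _ ≤ (C * |c α * ρ α|) ^ p := by
          refine Real.rpow_le_rpow
            (mul_nonneg (hc α).le (mul_nonneg hC dist_nonneg)) ?_ hp.le
          calc c α * (C * dist s s') = C * (c α * dist s s') := by ring
            _ ≤ C * (c α * ρ α) :=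
              mul_le_mul_of_nonneg_left (mul_le_mul_of_nonneg_left hs' (hc α).le) hC
            _ ≤ C * |c α * ρ α| := mul_le_mul_of_nonneg_left (le_abs_self _) hC
  have hcompact : IsCompact ({0} ∪ ⋃ α, K α) := by
    refine isCompact_shrinking K hK (fun α => (C * |c α * ρ α|) ^ p) ?_ hKn
    have h2 : Tendsto (fun α => C * |c α * ρ α|) cofinite (𝓝 0) := by
      have := hcρ.abs.const_mul C
      rwa [abs_zero, mul_zero] at this
    have h3 := h2.rpow_const (p := p) (Or.inr hp.le)
    rwa [Real.zero_rpow hp.ne'] at h3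
  obtain ⟨Cβ, hCβ, hβb⟩ := exists_bound hp hZ β
  obtain ⟨T', hT'fin, hT'⟩ := hAP _ hcompact (ε / (Cβ + 1)) (by positivity)
  refine ⟨T', hT'fin, fun α s s' hs => ?_⟩
  have h1 : ‖T' (c α • (δ s - δ s')) - c α • (δ s - δ s')‖ ^ (1 / p) < ε / (Cβ + 1) :=
    hT' _ (Or.inr (mem_iUnion.2 ⟨α, ⟨(s, s'), hs, rfl⟩⟩))
  have h2 : ‖β (T' (c α • (δ s - δ s'))) - β (c α • (δ s - δ s'))‖ ≤ ε := by
    rw [← map_sub]
    refine (hβb _).trans ?_
    calc Cβ * ‖T' (c α • (δ s - δ s')) - c α • (δ s - δ s')‖ ^ (1 / p)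
        ≤ (Cβ + 1) * (ε / (Cβ + 1)) := by
          refine mul_le_mul (by linarith) h1.le (Real.rpow_nonneg (norm_nonneg _) _)
            (by positivity)
      _ = ε := by
          have : Cβ + 1 ≠ 0 := by positivity
          field_simp
  rw [map_smul, map_smul, map_smul, ← smul_sub, norm_smul, Real.norm_of_nonneg (hc α).le] at h2
  rw [le_div_iff₀ (hc α), mul_comm]
  exact h2

end Pool.Agent.Y53.FP
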