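import Pool.Agent.Y53.FP.Main
import Pool.Agent.H548R3.NoAP
import Pool.Agent.H548R3.PConstr
import Pool.Agent.H548R3.Snow

/-!
Lipschitz free `p`-spaces without the approximation property.
-/

set_option autoImplicit false
set_option linter.unusedSectionVars false

open Set Filter Topology
open Pool.Agent.H548R3.PFree Pool.Agent.H548R3.NoAP
open scoped NNReal

namespace Pool.Agent.Y53.FP

/-- The Lipschitz free `p`-space over the metric space `N` with base point `o` exists and fails the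
approximation property. -/
def FreeFailsAP (p : ℝ) (N : Type) [MetricSpace N] (o : N) : Prop :=
  (∃ (Z : Type) (_ : NormedAddCommGroup Z) (_ : Module ℝ Z) (δ : N → Z),
    IsLipschitzFree p N o Z δ) ∧
  ∀ (Z : Type) [NormedAddCommGroup Z] [Module ℝ Z] (δ : N → Z),
    IsLipschitzFree p N o Z δ → ¬ HasAP p Z

lemma ap_E : ¬ HasAP 1 E := by
  intro h
  refine Pool.Agent.Helper362.Hap.Data.not_AP ℝ Pool.Agent.Helper362.Hap.dat ?_
  intro K hK ε hε
  obtain ⟨T, h1, h2⟩ := h K hK ε hε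
  refine ⟨T, h1, fun x hx => ?_⟩
  have h3 := h2 x hx
  unfold pnorm at h3
  rwa [div_one, Real.rpow_one] at h3

/-- the general form for a given compact set -/
lemma fails_of_maps {X : Type} [NormedAddCommGroup X] [NormedSpace ℝ X] [CompleteSpace X]
    (C : Set X) (hC : ∀ p : ℝ, 0 < p → ∀ (Z : Type) [NormedAddCommGroup Z] [Module ℝ Z],
        (∀ (a : ℝ) (z : Z), ‖a • z‖ = |a| ^ p * ‖z‖) → ∀ (δ : C → Z) (L : ℝ), 0 ≤ L →
        (∀ s s', ‖δ s - δ s'‖ ≤ (L * dist s s') ^ p) → ∀ β : Z →L[ℝ] X,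
        (∀ s s' : C, β (δ s) - β (δ s') = (s : X) - s') → ¬ HasAP p Z)
    (N : Type) [MetricSpace N] (o : N) (j : C → N) (π : N → X)
    (hj : ∃ L, LipschitzWith L j) (hπ : ∃ L, LipschitzWith L π) (c : ℝ) (hc : c ≠ 0)
    (hπj : ∀ s s' : C, π (j s) - π (j s') = c • ((s : X) - s')) (p : ℝ) (h0 : 0 < p)
    (h1 : p ≤ 1) : FreeFailsAP p N o := by
  have hp : Fact (0 < p ∧ p ≤ 1) := ⟨h0, h1⟩
  refine ⟨⟨FF p N, inferInstance, inferInstance, fun x => cl x o, isLipschitzFree o⟩, ?_⟩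
  intro Z _ _ δ h
  obtain ⟨L, hL⟩ := hj
  obtain ⟨L', hL'⟩ := hπ
  obtain ⟨β, hβ, -⟩ := h.lift (Snow p X) (isPBanach_snow p X)
    (fun y => toSnow (c⁻¹ • (π y - π o)) : N → Snow p X) (by
      show (c⁻¹ • (π o - π o) : X) = 0
      rw [sub_self, smul_zero])
    ⟨|c⁻¹| * L', fun x y => by
      rw [pnorm_snow]
      show ‖(c⁻¹ • (π x - π o) : X) - c⁻¹ • (π y - π o)‖ ≤ _
      rw [← smul_sub, sub_sub_sub_cancel_right, norm_smul, Real.norm_eq_abs, mul_assoc]
      refine mul_le_mul_of_nonneg_left ?_ (abs_nonneg _)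
      rw [← dist_eq_norm]
      exact hL'.dist_le_mul x y⟩
  refine hC p h0 Z h.banach.1 (fun s => δ (j s)) L L.2 (fun s s' => ?_)
    ((snowCLM p X).comp β) (fun s s' => ?_)
  · have h2 := h.isometric (j s) (j s')
    have h3 : ‖δ (j s) - δ (j s')‖ = (dist (j s) (j s')) ^ p := by
      rw [← h2, pnorm_rpow]
    rw [h3]
    exact Real.rpow_le_rpow dist_nonneg (hL.dist_le_mul s s') h0.le
  · show ofSnow (β (δ (j s))) - ofSnow (β (δ (j s'))) = _
    rw [hβ, hβ]
    show (c⁻¹ • (π (j s) - π o) : X) - c⁻¹ • (π (j s') - π o) = _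
    rw [← smul_sub, sub_sub_sub_cancel_right, hπj, smul_smul, inv_mul_cancel₀ hc, one_smul]

theorem main_X (X : Type) [NormedAddCommGroup X] [NormedSpace ℝ X] [CompleteSpace X]
    (hX : ¬ HasAP 1 X) :
    (∃ C : Set X, IsCompact C ∧ Nonempty (C ≃ₜ (ℕ → Bool)) ∧
      ∀ (N : Type) [MetricSpace N] (o : N) (j : C → N) (π : N → X),
        (∃ L, LipschitzWith L j) → (∃ L, LipschitzWith L π) → (∀ s : C, π (j s) = s) →
        ∀ p : ℝ, 0 < p → p ≤ 1 → FreeFailsAP p N o) ∧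
    ∀ N : Set X, (interior N).Nonempty → ∀ (o : N) (p : ℝ), 0 < p → p ≤ 1 →
      FreeFailsAP p N o := by
  obtain ⟨C, hCc, hCh, hC⟩ := main_aux hX
  refine ⟨⟨C, hCc, hCh, fun N _ o j π hj hπ hπj p h0 h1 => ?_⟩, fun N hN o p h0 h1 => ?_⟩
  · exact fails_of_maps C hC N o j π hj hπ 1 one_ne_zero
      (fun s s' => by rw [hπj, hπj, one_smul]) p h0 h1
  · obtain ⟨x0, hx0⟩ := hN
    obtain ⟨r, hr, hball⟩ := Metric.isOpen_iff.1 isOpen_interior x0 hx0
    obtain ⟨d, hd⟩ := hCc.isBounded.exists_norm_le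
    set t : ℝ := r / (2 * (|d| + 1)) with ht
    have ht0 : 0 < t := by positivity
    have hmem : ∀ s : C, x0 + t • (s : X) ∈ N := by
      intro s
      refine interior_subset (hball ?_)
      rw [Metric.mem_ball, dist_eq_norm, add_sub_cancel_left, norm_smul,
        Real.norm_of_nonneg ht0.le]
      have h2 := hd s s.2
      have h3 := le_abs_self d
      have h4 := abs_nonneg d
      calc t * ‖(s : X)‖ ≤ t * (|d| + 1) := mul_le_mul_of_nonneg_left (by linarith) ht0.le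
        _ = r / 2 := by rw [ht]; field_simp
        _ < r := by linarith
    refine fails_of_maps C hC N o (fun s => ⟨x0 + t • (s : X), hmem s⟩) (fun y => (y : X))
      ⟨Real.toNNReal t, ?_⟩ ⟨1, LipschitzWith.subtype_val N⟩ t ht0.ne' (fun s s' => ?_) p h0 h1
    · refine LipschitzWith.of_dist_le_mul fun s s' => ?_
      rw [Subtype.dist_eq, Subtype.dist_eq, dist_eq_norm, dist_eq_norm]
      show ‖(x0 + t • (s : X)) - (x0 + t • (s' : X))‖ ≤ _
      rw [add_sub_add_left_eq_sub, ← smul_sub, norm_smul, Real.norm_of_nonneg ht0.le,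
        Real.coe_toNNReal _ ht0.le]
    · show (x0 + t • (s : X)) - (x0 + t • (s' : X)) = _
      rw [add_sub_add_left_eq_sub, ← smul_sub]

/-- a Cantor space -/
theorem exists_cantor : ∃ (M : Type) (_ : MetricSpace M), Nonempty (M ≃ₜ (ℕ → Bool)) ∧
    ∀ (o : M) (p : ℝ), 0 < p → p ≤ 1 → FreeFailsAP p M o := by
  obtain ⟨⟨C, -, hCh, hC⟩, -⟩ := main_X E ap_E
  exact ⟨C, inferInstance, hCh, fun o p h0 h1 => hC C o (fun s => s) (fun s => (s : E))
    ⟨1, LipschitzWith.id⟩ ⟨1, LipschitzWith.subtype_val C⟩ (fun _ => rfl) p h0 h1⟩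

end Pool.Agent.Y53.FP
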