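import Mathlib

/-!
Averages of a function over discrete boxes, and the averaged differences.
-/

set_option autoImplicit false
set_option linter.unusedSectionVars false

namespace Pool.Agent.Y53.FP

variable {Y : Type*} [NormedAddCommGroup Y] [NormedSpace ℝ Y]

/-- integer vectors -/
abbrev A : Type := ℕ → ℕ

/-- the unit vectors -/
def ev (i : ℕ) : A := Pi.single i 1

lemma ev_self (i : ℕ) : ev i i = 1 := by simp [ev]

lemma ev_ne {i j : ℕ} (h : i ≠ j) : ev j i = 0 := by simp [ev, Pi.single_apply, h]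

/-- The average of `F` over `z, z + v, ..., z + (Q - 1) v`. -/
noncomputable def Mq (Q : ℕ) (v : A) (F : A → Y) (z : A) : Y :=
  (Q : ℝ)⁻¹ • ∑ q ∈ Finset.range Q, F (z + q • v)

lemma Mq_zero {Q : ℕ} (hQ : 0 < Q) (F : A → Y) : Mq Q 0 F = F := by
  funext z
  have hQ' : (Q : ℝ) ≠ 0 := by positivity
  simp only [Mq, smul_zero, add_zero, Finset.sum_const, Finset.card_range]
  rw [← Nat.cast_smul_eq_nsmul ℝ, smul_smul, inv_mul_cancel₀ hQ', one_smul]

lemma Mq_const {Q : ℕ} (hQ : 0 < Q) (v : A) (c : Y) (z : A) : Mq Q v (fun _ => c) z = c := by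
  have hQ' : (Q : ℝ) ≠ 0 := by positivity
  simp only [Mq, Finset.sum_const, Finset.card_range]
  rw [← Nat.cast_smul_eq_nsmul ℝ, smul_smul, inv_mul_cancel₀ hQ', one_smul]

lemma Mq_comm (Q : ℕ) (v w : A) (F : A → Y) : Mq Q v (Mq Q w F) = Mq Q w (Mq Q v F) := by
  funext z
  unfold Mq
  congr 1
  rw [← Finset.smul_sum, ← Finset.smul_sum, Finset.sum_comm]
  congr 1
  refine Finset.sum_congr rfl fun q _ => Finset.sum_congr rfl fun q' _ => ?_
  rw [add_right_comm]

/-- the key identity along one direction -/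
lemma Mq_shift (Q : ℕ) (v : A) (F : A → Y) (z : A) (s : ℕ) :
    Mq Q v F (z + s • v) - Mq Q v F z =
      (Q : ℝ)⁻¹ • ∑ σ ∈ Finset.range s, (F (z + σ • v + Q • v) - F (z + σ • v)) := by
  induction s with
  | zero => simp
  | succ s ih =>
    rw [Finset.sum_range_succ, smul_add, ← ih]
    have h1 : Mq Q v F (z + (s + 1) • v) - Mq Q v F (z + s • v) =
        (Q : ℝ)⁻¹ • (F (z + s • v + Q • v) - F (z + s • v)) := by
      unfold Mq
      rw [← smul_sub, ← Finset.sum_sub_distrib]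
      congr 1
      have h2 := Finset.sum_range_sub (fun q => F (z + s • v + q • v)) Q
      rw [zero_smul, add_zero] at h2
      rw [← h2]
      refine Finset.sum_congr rfl fun q _ => ?_
      congr 2
      rw [add_smul, add_smul, one_smul]
      abel
    rw [← h1]
    abel

lemma Mq_sub_le {Q : ℕ} (v : A) {F F' : A → Y} {ρ : A → ℝ} (z : A)
    (h : ∀ q < Q, ‖F (z + q • v) - F' (z + q • v)‖ ≤ ρ (z + q • v)) :
    ‖Mq Q v F z - Mq Q v F' z‖ ≤ Mq Q v ρ z := by
  unfold Mq
  rw [← smul_sub, ← Finset.sum_sub_distrib, norm_smul, smul_eq_mul, norm_inv, Real.norm_natCast]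
  refine mul_le_mul_of_nonneg_left ?_ (by positivity)
  refine (norm_sum_le _ _).trans (Finset.sum_le_sum fun q hq => h q (Finset.mem_range.1 hq))

/-- Iterated averages along `w 0, ..., w (m - 1)`. -/
noncomputable def G (Q : ℕ) (w : ℕ → A) (F : A → Y) : ℕ → A → Y
  | 0 => F
  | m + 1 => Mq Q (w m) (G Q w F m)

lemma G_congr (Q : ℕ) (w w' : ℕ → A) (F : A → Y) (m : ℕ) (h : ∀ i < m, w i = w' i) :
    G Q w F m = G Q w' F m := by
  induction m with
  | zero => rfl
  | succ m ih =>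
    show Mq Q (w m) (G Q w F m) = Mq Q (w' m) (G Q w' F m)
    rw [ih fun i hi => h i (by omega), h m (by omega)]

/-- one averaging can be moved outside -/
lemma G_extract {Q : ℕ} (hQ : 0 < Q) (F : A → Y) (v : ℕ → A) (j m : ℕ) (hj : j < m) :
    G Q v F m = Mq Q (v j) (G Q (Function.update v j 0) F m) := by
  induction m with
  | zero => omega
  | succ m ih =>
    rcases Nat.lt_succ_iff_lt_or_eq.1 hj with h | rfl
    · show Mq Q (v m) (G Q v F m) =
        Mq Q (v j) (Mq Q (Function.update v j 0 m) (G Q (Function.update v j 0) F m))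
      rw [ih h, Function.update_of_ne (by omega), Mq_comm]
    · show Mq Q (v j) (G Q v F j) =
        Mq Q (v j) (Mq Q (Function.update v j 0 j) (G Q (Function.update v j 0) F j))
      rw [Function.update_self, Mq_zero hQ]
      congr 1
      refine G_congr _ _ _ _ _ fun i hi => ?_
      rw [Function.update_of_ne (by omega)]

lemma G_const {Q : ℕ} (hQ : 0 < Q) (w : ℕ → A) (c : Y) (m : ℕ) (z : A) :
    G Q w (fun _ => c) m z = c := by
  induction m generalizing z with
  | zero => rfl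
  | succ m ih =>
    show Mq Q (w m) (G Q w (fun _ => c) m) z = c
    have h1 : G Q w (fun _ => c) m = fun _ => c := funext ih
    rw [h1, Mq_const hQ]

lemma G_add (Q : ℕ) (w : ℕ → A) (F F' : A → Y) (m : ℕ) :
    G Q w (fun z => F z + F' z) m = fun z => G Q w F m z + G Q w F' m z := by
  induction m with
  | zero => rfl
  | succ m ih =>
    funext z
    show Mq Q (w m) (G Q w (fun z => F z + F' z) m) z =
      Mq Q (w m) (G Q w F m) z + Mq Q (w m) (G Q w F' m) z
    rw [ih]
    unfold Mq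
    rw [Finset.sum_add_distrib, smul_add]

lemma G_smul (Q : ℕ) (w : ℕ → A) (c : ℝ) (F : A → Y) (m : ℕ) :
    G Q w (fun z => c • F z) m = fun z => c • G Q w F m z := by
  induction m with
  | zero => rfl
  | succ m ih =>
    funext z
    show Mq Q (w m) (G Q w (fun z => c • F z) m) z = c • Mq Q (w m) (G Q w F m) z
    rw [ih]
    unfold Mq
    rw [← Finset.smul_sum, smul_comm]

lemma G_sum {ι : Type*} (Q : ℕ) (w : ℕ → A) (s : Finset ι) (F : ι → A → Y) (m : ℕ) :
    G Q w (fun z => ∑ i ∈ s, F i z) m = fun z => ∑ i ∈ s, G Q w (F i) m z := by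
  induction m with
  | zero => rfl
  | succ m ih =>
    funext z
    show Mq Q (w m) (G Q w (fun z => ∑ i ∈ s, F i z) m) z = ∑ i ∈ s, Mq Q (w m) (G Q w (F i) m) z
    rw [ih]
    unfold Mq
    rw [Finset.sum_comm, Finset.smul_sum]

lemma G_comp {Y' : Type*} [NormedAddCommGroup Y'] [NormedSpace ℝ Y'] (L : Y →L[ℝ] Y') (Q : ℕ)
    (w : ℕ → A) (F : A → Y) (m : ℕ) :
    G Q w (fun z => L (F z)) m = fun z => L (G Q w F m z) := by
  induction m with
  | zero => rfl
  | succ m ih =>
    funext z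
    show Mq Q (w m) (G Q w (fun z => L (F z)) m) z = L (Mq Q (w m) (G Q w F m) z)
    rw [ih]
    unfold Mq
    rw [map_smul, map_sum]

lemma G_shift (Q : ℕ) (w : ℕ → A) (F : A → Y) (y : A) (m : ℕ) (z : A) :
    G Q w (fun r => F (r + y)) m z = G Q w F m (z + y) := by
  induction m generalizing z with
  | zero => rfl
  | succ m ih =>
    show Mq Q (w m) (G Q w (fun r => F (r + y)) m) z = Mq Q (w m) (G Q w F m) (z + y)
    unfold Mq
    congr 1
    refine Finset.sum_congr rfl fun q _ => ?_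
    rw [ih, add_right_comm]

/-- differences of averages are at most the average of a majorant -/
lemma G_sub_le {Q : ℕ} (hQ : 0 < Q) (w : ℕ → A) {F F' : A → Y} {ρ : A → ℝ} (m : ℕ) (z : A)
    (h : ∀ t : ℕ → ℕ, (∀ i, t i < Q) → ‖F (z + ∑ i ∈ Finset.range m, t i • w i) -
      F' (z + ∑ i ∈ Finset.range m, t i • w i)‖ ≤ ρ (z + ∑ i ∈ Finset.range m, t i • w i)) :
    ‖G Q w F m z - G Q w F' m z‖ ≤ G Q w ρ m z := by
  induction m generalizing z with
  | zero =>
    show ‖F z - F' z‖ ≤ ρ z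
    simpa using h (fun _ => 0) (fun _ => hQ)
  | succ m ih =>
    refine Mq_sub_le _ _ fun s hs => ?_
    refine ih _ fun t ht => ?_
    have h2 := h (Function.update t m s) (fun i => by
      rcases eq_or_ne i m with rfl | h
      · rwa [Function.update_self]
      · rw [Function.update_of_ne h]; exact ht i)
    rw [Finset.sum_range_succ, Function.update_self] at h2
    have h3 : ∑ i ∈ Finset.range m, Function.update t m s i • w i =
        ∑ i ∈ Finset.range m, t i • w i := by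
      refine Finset.sum_congr rfl fun i hi => ?_
      rw [Function.update_of_ne (Finset.mem_range.1 hi).ne]
    rw [h3] at h2
    have h4 : z + s • w m + ∑ i ∈ Finset.range m, t i • w i =
        z + (∑ i ∈ Finset.range m, t i • w i + s • w m) := by abel
    rw [h4]
    exact h2

/-- the difference of averages at two points -/
lemma G_diff_le {Q : ℕ} (hQ : 0 < Q) (w : ℕ → A) {F : A → Y} {ρ : A → ℝ} (m : ℕ) (z y y' : A)
    (h : ∀ t : ℕ → ℕ, (∀ i, t i < Q) → ‖F (z + ∑ i ∈ Finset.range m, t i • w i + y) -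
      F (z + ∑ i ∈ Finset.range m, t i • w i + y')‖ ≤ ρ (z + ∑ i ∈ Finset.range m, t i • w i)) :
    ‖G Q w F m (z + y) - G Q w F m (z + y')‖ ≤ G Q w ρ m z := by
  rw [← G_shift, ← G_shift Q w F y']
  exact G_sub_le hQ w m z h

/-- functions of a coordinate which is not averaged -/
lemma G_coord_ne {Q : ℕ} (hQ : 0 < Q) (w : ℕ → A) (g : ℕ → Y) (i m : ℕ) (h : ∀ l < m, w l i = 0)
    (z : A) : G Q w (fun r => g (r i)) m z = g (z i) := by
  induction m generalizing z with
  | zero => rfl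
  | succ m ih =>
    show Mq Q (w m) (G Q w (fun r => g (r i)) m) z = g (z i)
    have h1 : ∀ q : ℕ, G Q w (fun r => g (r i)) m (z + q • w m) = g (z i) := by
      intro q
      rw [ih fun l hl => h l (by omega)]
      congr 1
      simp [h m (by omega)]
    have hQ' : (Q : ℝ) ≠ 0 := by positivity
    unfold Mq
    simp only [h1, Finset.sum_const, Finset.card_range]
    rw [← Nat.cast_smul_eq_nsmul ℝ, smul_smul, inv_mul_cancel₀ hQ', one_smul]

/-- functions of an averaged coordinate -/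
lemma G_coord {Q : ℕ} (hQ : 0 < Q) (w : ℕ → A) (g : ℕ → Y) (i m : ℕ) (him : i < m)
    (hi : w i = ev i) (h : ∀ l, l ≠ i → w l i = 0) (z : A) :
    G Q w (fun r => g (r i)) m z = (Q : ℝ)⁻¹ • ∑ q ∈ Finset.range Q, g (z i + q) := by
  induction m generalizing z with
  | zero => omega
  | succ m ih =>
    show Mq Q (w m) (G Q w (fun r => g (r i)) m) z = _
    rcases Nat.lt_succ_iff_lt_or_eq.1 him with h1 | rfl
    · have h2 : ∀ q : ℕ, G Q w (fun r => g (r i)) m (z + q • w m) =
          (Q : ℝ)⁻¹ • ∑ q ∈ Finset.range Q, g (z i + q) := by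
        intro q
        rw [ih h1]
        have h3 : (z + q • w m) i = z i := by simp [h m (by omega)]
        rw [h3]
      have hQ' : (Q : ℝ) ≠ 0 := by positivity
      unfold Mq
      simp only [h2, Finset.sum_const, Finset.card_range]
      rw [← Nat.cast_smul_eq_nsmul ℝ, smul_smul, inv_mul_cancel₀ hQ', one_smul]
    · unfold Mq
      congr 1
      refine Finset.sum_congr rfl fun q _ => ?_
      rw [G_coord_ne hQ w g i i (fun l hl => h l hl.ne)]
      congr 1
      simp [hi, ev_self]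

/-- The averaged difference of `F` in the direction `j`. -/
noncomputable def D (Q : ℕ) (F : A → Y) (j m : ℕ) : Y :=
  G Q (Function.update ev j 0) F m (Q • ev j) - G Q (Function.update ev j 0) F m 0

/-- one direction -/
lemma G_dir {Q : ℕ} (hQ : 0 < Q) (F : A → Y) (j m : ℕ) (hj : j < m) (z : A) (s : ℕ)
    {B : ℝ} (hB : ∀ σ < s, ∀ b : ℕ, b = 0 ∨ b = Q →
      ‖G Q (Function.update ev j 0) F m (z + σ • ev j + b • ev j) -
        G Q (Function.update ev j 0) F m (b • ev j)‖ ≤ B) :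
    ‖G Q ev F m (z + s • ev j) - G Q ev F m z - ((Q : ℝ)⁻¹ * s) • D Q F j m‖ ≤
      2 * B * ((Q : ℝ)⁻¹ * s) := by
  set u := Function.update ev j 0 with hu
  rw [G_extract hQ F ev j m hj, Mq_shift]
  have h0 : ((Q : ℝ)⁻¹ * s) • D Q F j m =
      (Q : ℝ)⁻¹ • ∑ σ ∈ Finset.range s, (G Q u F m (Q • ev j) - G Q u F m 0) := by
    rw [Finset.sum_const, Finset.card_range, mul_smul, Nat.cast_smul_eq_nsmul]
    rfl
  rw [h0, ← smul_sub, ← Finset.sum_sub_distrib, norm_smul, norm_inv, Real.norm_natCast]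
  have key : ∀ σ ∈ Finset.range s, ‖G Q u F m (z + σ • ev j + Q • ev j) -
      G Q u F m (z + σ • ev j) - (G Q u F m (Q • ev j) - G Q u F m 0)‖ ≤ 2 * B := by
    intro σ hσ
    have h1 := hB σ (Finset.mem_range.1 hσ) Q (Or.inr rfl)
    have h2 := hB σ (Finset.mem_range.1 hσ) 0 (Or.inl rfl)
    rw [zero_smul, add_zero] at h2
    have h4 : G Q u F m (z + σ • ev j + Q • ev j) - G Q u F m (z + σ • ev j) -
        (G Q u F m (Q • ev j) - G Q u F m 0) =
        (G Q u F m (z + σ • ev j + Q • ev j) - G Q u F m (Q • ev j)) -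
          (G Q u F m (z + σ • ev j) - G Q u F m 0) := by abel
    rw [h4]
    refine (norm_sub_le _ _).trans ?_
    linarith
  have h5 := norm_sum_le_of_le _ key
  have h6 : s • (2 * B) = (s : ℝ) * (2 * B) := nsmul_eq_mul _ _
  rw [Finset.sum_const, Finset.card_range, h6] at h5
  calc (Q : ℝ)⁻¹ * ‖_‖ ≤ (Q : ℝ)⁻¹ * (s * (2 * B)) :=
        mul_le_mul_of_nonneg_left h5 (by positivity)
    _ = 2 * B * ((Q : ℝ)⁻¹ * s) := by ring

/-- The main finite estimate. -/
lemma G_key {Q : ℕ} (hQ : 0 < Q) (F : A → Y) (n m : ℕ) (hnm : n ≤ m) (N : ℕ → ℕ) {B : ℝ}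
    (hB : ∀ j < n, ∀ σ < N j, ∀ b : ℕ, b = 0 ∨ b = Q →
      ‖G Q (Function.update ev j 0) F m (∑ i ∈ Finset.range j, N i • ev i + σ • ev j + b • ev j) -
        G Q (Function.update ev j 0) F m (b • ev j)‖ ≤ B) :
    ‖G Q ev F m (∑ i ∈ Finset.range n, N i • ev i) - G Q ev F m 0 -
      ∑ j ∈ Finset.range n, ((Q : ℝ)⁻¹ * N j) • D Q F j m‖ ≤
      2 * B * ∑ j ∈ Finset.range n, (Q : ℝ)⁻¹ * N j := by
  have key : ∀ k ≤ n, ‖G Q ev F m (∑ i ∈ Finset.range k, N i • ev i) - G Q ev F m 0 -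
      ∑ j ∈ Finset.range k, ((Q : ℝ)⁻¹ * N j) • D Q F j m‖ ≤
      2 * B * ∑ j ∈ Finset.range k, (Q : ℝ)⁻¹ * N j := by
    intro k hk
    induction k with
    | zero => simp
    | succ k ih =>
      have ih' := ih (by omega)
      have h3 := G_dir hQ F k m (by omega) (∑ i ∈ Finset.range k, N i • ev i) (N k)
        (hB k (by omega))
      rw [Finset.sum_range_succ, Finset.sum_range_succ, Finset.sum_range_succ]
      have h7 : G Q ev F m (∑ i ∈ Finset.range k, N i • ev i + N k • ev k) - G Q ev F m 0 -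
          (∑ j ∈ Finset.range k, ((Q : ℝ)⁻¹ * N j) • D Q F j m + ((Q : ℝ)⁻¹ * N k) • D Q F k m) =
          (G Q ev F m (∑ i ∈ Finset.range k, N i • ev i + N k • ev k) -
            G Q ev F m (∑ i ∈ Finset.range k, N i • ev i) - ((Q : ℝ)⁻¹ * N k) • D Q F k m) +
          (G Q ev F m (∑ i ∈ Finset.range k, N i • ev i) - G Q ev F m 0 -
            ∑ j ∈ Finset.range k, ((Q : ℝ)⁻¹ * N j) • D Q F j m) := by abel
      rw [h7]
      refine (norm_add_le _ _).trans ?_
      linarith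
  exact key n le_rfl

/-- The estimate for signed shifts. -/
lemma G_key2 {Q : ℕ} (hQ : 0 < Q) (F : A → Y) (n m : ℕ) (hnm : n ≤ m) (N N' : ℕ → ℕ) {B : ℝ}
    (hB : ∀ K : ℕ → ℕ, K = N ∨ K = N' → ∀ j < n, ∀ σ < K j, ∀ b : ℕ, b = 0 ∨ b = Q →
      ‖G Q (Function.update ev j 0) F m (∑ i ∈ Finset.range j, K i • ev i + σ • ev j + b • ev j) -
        G Q (Function.update ev j 0) F m (b • ev j)‖ ≤ B) :
    ‖∑ j ∈ Finset.range n, ((Q : ℝ)⁻¹ * N j - (Q : ℝ)⁻¹ * N' j) • D Q F j m‖ ≤
      ‖G Q ev F m (∑ i ∈ Finset.range n, N i • ev i) -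
        G Q ev F m (∑ i ∈ Finset.range n, N' i • ev i)‖ +
      2 * B * ∑ j ∈ Finset.range n, ((Q : ℝ)⁻¹ * N j + (Q : ℝ)⁻¹ * N' j) := by
  have h1 := G_key hQ F n m hnm N (hB N (Or.inl rfl))
  have h2 := G_key hQ F n m hnm N' (hB N' (Or.inr rfl))
  have h3 : ∑ j ∈ Finset.range n, ((Q : ℝ)⁻¹ * N j - (Q : ℝ)⁻¹ * N' j) • D Q F j m =
      (G Q ev F m (∑ i ∈ Finset.range n, N i • ev i) -
        G Q ev F m (∑ i ∈ Finset.range n, N' i • ev i)) -
      (G Q ev F m (∑ i ∈ Finset.range n, N i • ev i) - G Q ev F m 0 -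
        ∑ j ∈ Finset.range n, ((Q : ℝ)⁻¹ * N j) • D Q F j m) +
      (G Q ev F m (∑ i ∈ Finset.range n, N' i • ev i) - G Q ev F m 0 -
        ∑ j ∈ Finset.range n, ((Q : ℝ)⁻¹ * N' j) • D Q F j m) := by
    simp only [sub_smul, Finset.sum_sub_distrib]
    abel
  rw [h3, Finset.sum_add_distrib]
  refine (norm_add_le _ _).trans ?_
  have h4 := norm_sub_le (G Q ev F m (∑ i ∈ Finset.range n, N i • ev i) -
        G Q ev F m (∑ i ∈ Finset.range n, N' i • ev i))
      (G Q ev F m (∑ i ∈ Finset.range n, N i • ev i) - G Q ev F m 0 -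
        ∑ j ∈ Finset.range n, ((Q : ℝ)⁻¹ * N j) • D Q F j m)
  linarith

end Pool.Agent.Y53.FP
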