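import Mathlib

/-!
The binary digits of an integer with weights `256 ^ (-k)`: a function with small jumps.
-/

set_option autoImplicit false

namespace Pool.Agent.Y53.FP

/-- fourth root -/
noncomputable def rt (x : ℝ) : ℝ := √(√x)

lemma rt_nonneg (x : ℝ) : 0 ≤ rt x := Real.sqrt_nonneg _

lemma rt_mono {x y : ℝ} (h : x ≤ y) : rt x ≤ rt y := Real.sqrt_le_sqrt (Real.sqrt_le_sqrt h)

lemma rt_sq (x : ℝ) : rt x * rt x = √x := Real.mul_self_sqrt (Real.sqrt_nonneg _)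

lemma sqrt_add_le (x y : ℝ) (hx : 0 ≤ x) (hy : 0 ≤ y) : √(x + y) ≤ √x + √y := by
  rw [Real.sqrt_le_left (by positivity)]
  have h1 := Real.sq_sqrt hx
  have h2 := Real.sq_sqrt hy
  nlinarith [mul_nonneg (Real.sqrt_nonneg x) (Real.sqrt_nonneg y)]

lemma rt_add_le (x y : ℝ) (hx : 0 ≤ x) (hy : 0 ≤ y) : rt (x + y) ≤ rt x + rt y :=
  (Real.sqrt_le_sqrt (sqrt_add_le x y hx hy)).trans
    (sqrt_add_le _ _ (Real.sqrt_nonneg _) (Real.sqrt_nonneg _))

lemma rt_pow (n : ℕ) : rt ((1 / 256) ^ n) = (1 / 4) ^ n := by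
  unfold rt
  have h1 : ((1 : ℝ) / 256) ^ n = (((1 / 4) ^ n) ^ 2) ^ 2 := by
    rw [← pow_mul, ← pow_mul, show (1 : ℝ) / 256 = (1 / 4) ^ 4 by norm_num, ← pow_mul]
    congr 1
    ring
  rw [h1, Real.sqrt_sq (by positivity), Real.sqrt_sq (by positivity)]

lemma rt_mul (x y : ℝ) (hx : 0 ≤ x) : rt (x * y) = rt x * rt y := by
  unfold rt
  rw [Real.sqrt_mul hx, Real.sqrt_mul (Real.sqrt_nonneg _)]

lemma rt_le_two {x : ℝ} (h : x ≤ 2) : rt x ≤ 2 := by
  unfold rt
  rw [Real.sqrt_le_left (by norm_num), Real.sqrt_le_left (by norm_num)]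
  linarith

lemma sqrt_le_rt {x : ℝ} (h : x ≤ 2) : √x ≤ 2 * rt x := by
  rw [← rt_sq]
  exact mul_le_mul_of_nonneg_right (rt_le_two h) (rt_nonneg x)

lemma le_rt {x : ℝ} (hx : 0 ≤ x) (h : x ≤ 2) : x ≤ 4 * rt x := by
  have h1 : x = √x * √x := (Real.mul_self_sqrt hx).symm
  have h2 : √x ≤ 2 := by
    rw [Real.sqrt_le_left (by norm_num)]
    linarith
  have h3 := sqrt_le_rt h
  have h4 := Real.sqrt_nonneg x
  nlinarith

/-- digits with weights -/
noncomputable def dg (w : ℕ → ℝ) (n r : ℕ) : ℝ :=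
  ∑ k ∈ Finset.range (n + 1), if Nat.testBit r (n - k) then w k else 0

lemma dg_zero (w : ℕ → ℝ) (r : ℕ) : dg w 0 r = if r % 2 = 1 then w 0 else 0 := by
  simp [dg, Nat.testBit_zero]

lemma dg_succ (w : ℕ → ℝ) (n r : ℕ) :
    dg w (n + 1) r = dg w n (r / 2) + if r % 2 = 1 then w (n + 1) else 0 := by
  unfold dg
  rw [Finset.sum_range_succ]
  congr 1
  · refine Finset.sum_congr rfl fun k hk => ?_
    have hk' : k ≤ n := Nat.lt_succ_iff.1 (Finset.mem_range.1 hk)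
    have h1 : n + 1 - k = (n - k) + 1 := by omega
    rw [h1, Nat.testBit_succ]
  · simp [Nat.testBit_zero]

lemma dg_half (n r : ℕ) (h : r < 2 ^ (n + 1)) : dg (fun k => (1 / 2) ^ k) n r = r / 2 ^ n := by
  induction n generalizing r with
  | zero =>
    rw [dg_zero]
    have : r = 0 ∨ r = 1 := by omega
    rcases this with rfl | rfl <;> simp
  | succ n ih =>
    rw [dg_succ, ih (r / 2) (by rw [pow_succ] at h; omega)]
    have h1 : (r : ℝ) = 2 * ((r / 2 : ℕ) : ℝ) + ((r % 2 : ℕ) : ℝ) := by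
      have := Nat.div_add_mod r 2
      exact_mod_cast this.symm
    have h2 : (2 : ℝ) ^ n ≠ 0 := by positivity
    rcases Nat.mod_two_eq_zero_or_one r with h3 | h3
    · rw [h1, h3, pow_succ]
      simp
      field_simp
      ring
    · rw [h1, h3, pow_succ]
      simp
      field_simp
      ring

lemma dg_mono (w w' : ℕ → ℝ) (n r : ℕ) (h : ∀ k, w k ≤ w' k) : dg w n r ≤ dg w' n r := by
  unfold dg
  refine Finset.sum_le_sum fun k _ => ?_
  split_ifs
  · exact h k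
  · exact le_rfl

lemma dg_nonneg (w : ℕ → ℝ) (n r : ℕ) (h : ∀ k, 0 ≤ w k) : 0 ≤ dg w n r := by
  unfold dg
  refine Finset.sum_nonneg fun k _ => ?_
  split_ifs
  · exact h k
  · exact le_rfl

/-- the jump function -/
noncomputable def Jf (n r : ℕ) : ℝ := dg (fun k => (1 / 256) ^ k) n r

lemma Jf_nonneg (n r : ℕ) : 0 ≤ Jf n r := dg_nonneg _ _ _ fun _ => by positivity

lemma Jf_le (n r : ℕ) (h : r < 2 ^ (n + 1)) : Jf n r ≤ r / 2 ^ n := by
  rw [← dg_half n r h]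
  exact dg_mono _ _ _ _ fun k => pow_le_pow_left₀ (by norm_num) (by norm_num) k

lemma Jf_le_two (n r : ℕ) (h : r < 2 ^ (n + 1)) : Jf n r ≤ 2 := by
  refine (Jf_le n r h).trans ?_
  rw [div_le_iff₀ (by positivity)]
  have : (r : ℝ) < 2 ^ (n + 1) := by exact_mod_cast h
  rw [pow_succ] at this
  linarith

lemma Jf_sub_le_two (n r s : ℕ) (hr : r < 2 ^ (n + 1)) (hs : s < 2 ^ (n + 1)) :
    |Jf n r - Jf n s| ≤ 2 := by
  rw [abs_le]
  have h1 := Jf_le_two n r hr
  have h2 := Jf_le_two n s hs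
  have h3 := Jf_nonneg n r
  have h4 := Jf_nonneg n s
  constructor <;> linarith

lemma Jf_top (n q : ℕ) (h : q < 2 ^ n) : Jf n (2 ^ n + q) = 1 + Jf n q := by
  unfold Jf
  induction n generalizing q with
  | zero =>
    have : q = 0 := by omega
    subst this
    simp [dg_zero]
  | succ n ih =>
    rw [dg_succ, dg_succ]
    have h1 : (2 ^ (n + 1) + q) / 2 = 2 ^ n + q / 2 := by rw [pow_succ]; omega
    have h2 : (2 ^ (n + 1) + q) % 2 = q % 2 := by rw [pow_succ]; omega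
    rw [h1, h2, ih (q / 2) (by rw [pow_succ] at h; omega)]
    ring

lemma Jf_even (n q : ℕ) : Jf (n + 1) (2 * q) = Jf n q := by
  unfold Jf
  rw [dg_succ]
  have h1 : 2 * q / 2 = q := by omega
  have h2 : ¬ (2 * q % 2 = 1) := by omega
  rw [h1, if_neg h2, add_zero]

lemma Jf_odd (n q : ℕ) : Jf (n + 1) (2 * q + 1) = Jf n q + (1 / 256) ^ (n + 1) := by
  unfold Jf
  rw [dg_succ]
  have h1 : (2 * q + 1) / 2 = q := by omega
  have h2 : (2 * q + 1) % 2 = 1 := by omega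
  rw [h1, if_pos h2]

/-- the jumps -/
noncomputable def jp (n q : ℕ) : ℝ := rt |Jf n (q + 1) - Jf n q|

lemma jp_even (n q : ℕ) : jp (n + 1) (2 * q) = (1 / 4) ^ (n + 1) := by
  unfold jp
  rw [Jf_even, Jf_odd, add_sub_cancel_left, abs_of_pos (by positivity), rt_pow]

lemma jp_odd (n q : ℕ) : jp (n + 1) (2 * q + 1) ≤ jp n q + (1 / 4) ^ (n + 1) := by
  unfold jp
  have h1 : 2 * q + 1 + 1 = 2 * (q + 1) := by ring
  rw [h1, Jf_even, Jf_odd]
  have h2 : |Jf n (q + 1) - (Jf n q + (1 / 256) ^ (n + 1))| ≤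
      |Jf n (q + 1) - Jf n q| + (1 / 256) ^ (n + 1) := by
    have h3 : Jf n (q + 1) - (Jf n q + (1 / 256) ^ (n + 1)) =
      (Jf n (q + 1) - Jf n q) - (1 / 256) ^ (n + 1) := by ring
    rw [h3]
    refine (abs_sub _ _).trans (le_of_eq ?_)
    rw [abs_of_pos (a := (1 / 256 : ℝ) ^ (n + 1)) (by positivity)]
  refine (rt_mono h2).trans ((rt_add_le _ _ (abs_nonneg _) (by positivity)).trans (le_of_eq ?_))
  rw [rt_pow]

lemma sum_two_mul_succ (g : ℕ → ℝ) (K : ℕ) : ∑ q ∈ Finset.range (2 * K + 1), g q =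
    ∑ q ∈ Finset.range K, (g (2 * q) + g (2 * q + 1)) + g (2 * K) := by
  induction K with
  | zero => simp
  | succ K ih =>
    have h1 : 2 * (K + 1) + 1 = 2 * K + 1 + 1 + 1 := by ring
    rw [h1, Finset.sum_range_succ, Finset.sum_range_succ, ih, Finset.sum_range_succ]
    have h2 : 2 * (K + 1) = 2 * K + 1 + 1 := by ring
    rw [h2]
    ring

lemma sum_jp (n : ℕ) : ∑ q ∈ Finset.range (2 ^ (n + 1) - 1), jp n q ≤ 3 - 2 * (1 / 2) ^ n := by
  induction n with
  | zero =>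
    have h1 : Jf 0 1 = 1 := by simp [Jf, dg_zero]
    have h2 : Jf 0 0 = 0 := by simp [Jf, dg_zero]
    simp [jp, h1, h2, rt]
    norm_num
  | succ n ih =>
    have h1 : 2 ^ (n + 1 + 1) - 1 = 2 * (2 ^ (n + 1) - 1) + 1 := by
      have : 1 ≤ 2 ^ (n + 1) := Nat.one_le_two_pow
      rw [pow_succ 2 (n + 1)]
      omega
    rw [h1, sum_two_mul_succ]
    set K := 2 ^ (n + 1) - 1 with hK
    have hK' : (K : ℝ) ≤ 2 ^ (n + 1) - 1 := by
      have h3 : K + 1 = 2 ^ (n + 1) := by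
        have : 1 ≤ 2 ^ (n + 1) := Nat.one_le_two_pow
        omega
      have h4 : (K : ℝ) + 1 = 2 ^ (n + 1) := by exact_mod_cast h3
      linarith
    have h2 : ∑ q ∈ Finset.range K, (jp (n + 1) (2 * q) + jp (n + 1) (2 * q + 1)) ≤
        ∑ q ∈ Finset.range K, jp n q + K * (2 * (1 / 4) ^ (n + 1)) := by
      have h4 : ∑ q ∈ Finset.range K, (jp n q + 2 * (1 / 4) ^ (n + 1)) =
          ∑ q ∈ Finset.range K, jp n q + K * (2 * (1 / 4) ^ (n + 1)) := by
        rw [Finset.sum_add_distrib, Finset.sum_const, Finset.card_range, nsmul_eq_mul]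
      rw [← h4]
      refine Finset.sum_le_sum fun q _ => ?_
      have h3 := jp_odd n q
      rw [jp_even]
      linarith
    rw [jp_even]
    have h5 : (2 : ℝ) ^ (n + 1) * (1 / 4) ^ (n + 1) = (1 / 2) ^ (n + 1) := by
      rw [← mul_pow]
      norm_num
    have h6 : (0 : ℝ) < (1 / 4) ^ (n + 1) := by positivity
    have h7 : (K : ℝ) * (2 * (1 / 4) ^ (n + 1)) ≤
        (2 ^ (n + 1) - 1) * (2 * (1 / 4) ^ (n + 1)) :=
      mul_le_mul_of_nonneg_right hK' (by positivity)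
    have h8 : (1 / 2 : ℝ) ^ (n + 1) = (1 / 2) ^ n / 2 := by rw [pow_succ]; ring
    nlinarith

lemma abs_Jf_le_sum (n q N : ℕ) : rt |Jf n (q + N) - Jf n q| ≤
    ∑ s ∈ Finset.range N, jp n (q + s) := by
  induction N with
  | zero => simp [rt]
  | succ N ih =>
    rw [Finset.sum_range_succ]
    have h1 : |Jf n (q + (N + 1)) - Jf n q| ≤
        |Jf n (q + N) - Jf n q| + |Jf n (q + N + 1) - Jf n (q + N)| := by
      have h2 : Jf n (q + (N + 1)) - Jf n q =
        (Jf n (q + N) - Jf n q) + (Jf n (q + N + 1) - Jf n (q + N)) := by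
        rw [← add_assoc]; ring
      rw [h2]
      exact abs_add_le _ _
    refine (rt_mono h1).trans ((rt_add_le _ _ (abs_nonneg _) (abs_nonneg _)).trans ?_)
    exact add_le_add ih le_rfl

/-- averages of the jump -/
lemma sum_rt_le (n N : ℕ) (hN : N ≤ 2 ^ n) :
    ∑ q ∈ Finset.range (2 ^ n), rt |Jf n (q + N) - Jf n q| ≤ 3 * N := by
  calc ∑ q ∈ Finset.range (2 ^ n), rt |Jf n (q + N) - Jf n q|
      ≤ ∑ q ∈ Finset.range (2 ^ n), ∑ s ∈ Finset.range N, jp n (q + s) :=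
        Finset.sum_le_sum fun q _ => abs_Jf_le_sum n q N
    _ = ∑ s ∈ Finset.range N, ∑ q ∈ Finset.range (2 ^ n), jp n (q + s) := Finset.sum_comm
    _ ≤ ∑ _s ∈ Finset.range N, (3 : ℝ) := by
        refine Finset.sum_le_sum fun s hs => ?_
        have hs' := Finset.mem_range.1 hs
        have h1 : ∑ q ∈ Finset.range (2 ^ n), jp n (q + s) =
            ∑ q ∈ Finset.Ico s (2 ^ n + s), jp n q := by
          rw [Finset.range_eq_Ico, Finset.sum_Ico_add' (fun q => jp n q) 0 (2 ^ n) s, zero_add]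
        rw [h1]
        have h2 : Finset.Ico s (2 ^ n + s) ⊆ Finset.range (2 ^ (n + 1) - 1) := by
          intro q hq
          rw [Finset.mem_Ico] at hq
          rw [Finset.mem_range, pow_succ]
          omega
        refine (Finset.sum_le_sum_of_subset_of_nonneg h2 fun _ _ _ => rt_nonneg _).trans ?_
        refine (sum_jp n).trans ?_
        have : (0 : ℝ) < (1 / 2) ^ n := by positivity
        linarith
    _ = 3 * N := by rw [Finset.sum_const, Finset.card_range, nsmul_eq_mul, mul_comm]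

lemma sum_sqrt_le (n N : ℕ) (hN : N ≤ 2 ^ n) :
    ∑ q ∈ Finset.range (2 ^ n), √|Jf n (q + N) - Jf n q| ≤ 6 * N := by
  have h1 := sum_rt_le n N hN
  have h2 : ∑ q ∈ Finset.range (2 ^ n), √|Jf n (q + N) - Jf n q| ≤
      ∑ q ∈ Finset.range (2 ^ n), 2 * rt |Jf n (q + N) - Jf n q| := by
    refine Finset.sum_le_sum fun q hq => sqrt_le_rt (Jf_sub_le_two _ _ _ ?_ ?_)
    · have := Finset.mem_range.1 hq
      rw [pow_succ]; omega
    · have := Finset.mem_range.1 hq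
      rw [pow_succ]; omega
  rw [← Finset.mul_sum] at h2
  linarith

lemma sum_abs_le (n N : ℕ) (hN : N ≤ 2 ^ n) :
    ∑ q ∈ Finset.range (2 ^ n), |Jf n (q + N) - Jf n q| ≤ 12 * N := by
  have h1 := sum_rt_le n N hN
  have h2 : ∑ q ∈ Finset.range (2 ^ n), |Jf n (q + N) - Jf n q| ≤
      ∑ q ∈ Finset.range (2 ^ n), 4 * rt |Jf n (q + N) - Jf n q| := by
    refine Finset.sum_le_sum fun q hq => le_rt (abs_nonneg _) (Jf_sub_le_two _ _ _ ?_ ?_)
    · have := Finset.mem_range.1 hq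
      rw [pow_succ]; omega
    · have := Finset.mem_range.1 hq
      rw [pow_succ]; omega
  rw [← Finset.mul_sum] at h2
  linarith

end Pool.Agent.Y53.FP
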