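import Pool.Agent.Y53.FP.Avg

/-!
Linearization of Lipschitz maps on the Cantor set with values in a finite dimensional space.
-/

set_option autoImplicit false
set_option linter.unusedSectionVars false

open Set Filter Topology

namespace Pool.Agent.Y53.FP

/-- integer shifts at level `k` -/
noncomputable def nn (h : ℝ) (a : ℕ → ℝ) (k i : ℕ) : ℕ := ⌊(h * max (a i) 0) * 2 ^ k⌋₊

section nn

variable {h : ℝ} {a : ℕ → ℝ}

lemma nn_div_le (h0 : 0 < h) (k i : ℕ) : (nn h a k i : ℝ) / 2 ^ k ≤ h * max (a i) 0 := by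
  rw [div_le_iff₀ (by positivity)]
  exact Nat.floor_le (by positivity)

lemma max_le_abs (x : ℝ) : max x 0 ≤ |x| := max_le (le_abs_self x) (abs_nonneg x)

lemma nn_div_le' (h0 : 0 < h) (k i : ℕ) : (nn h a k i : ℝ) / 2 ^ k ≤ h * |a i| :=
  (nn_div_le h0 k i).trans (mul_le_mul_of_nonneg_left (max_le_abs _) h0.le)

lemma nn_le (h0 : 0 < h) (k i : ℕ) (h1 : h * |a i| ≤ 1) : nn h a k i ≤ 2 ^ k := by
  have h2 := nn_div_le' (a := a) h0 k i
  rw [div_le_iff₀ (by positivity)] at h2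
  have h3 : (nn h a k i : ℝ) ≤ 2 ^ k := by
    refine h2.trans ?_
    have : (0 : ℝ) < 2 ^ k := by positivity
    nlinarith
  exact_mod_cast h3

lemma tendsto_nn (h0 : 0 < h) (i : ℕ) :
    Tendsto (fun k => (nn h a k i : ℝ) / 2 ^ k) atTop (𝓝 (h * max (a i) 0)) :=
  (tendsto_nat_floor_mul_div_atTop (R := ℝ) (a := h * max (a i) 0) (by positivity)).comp
    (tendsto_pow_atTop_atTop_of_one_lt (by norm_num : (1 : ℝ) < 2))

lemma nn_or (h a) (k i : ℕ) : nn h a k i = 0 ∨ nn h (-a) k i = 0 := by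
  rcases le_total (a i) 0 with h1 | h1
  · left
    unfold nn
    rw [max_eq_right h1]
    simp
  · right
    unfold nn
    rw [max_eq_right (by simpa using h1)]
    simp

lemma nn_add_le (h0 : 0 < h) (k i : ℕ) :
    ((nn h a k i + nn h (-a) k i : ℕ) : ℝ) / 2 ^ k ≤ h * |a i| := by
  rcases nn_or h a k i with h1 | h1
  · rw [h1, zero_add]
    have := nn_div_le' (a := -a) h0 k i
    simpa using this
  · rw [h1, add_zero]
    exact nn_div_le' h0 k i

lemma nn_add_le_pow (h0 : 0 < h) (k i : ℕ) (h1 : h * |a i| ≤ 1) :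
    nn h a k i + nn h (-a) k i ≤ 2 ^ k := by
  rcases nn_or h a k i with h2 | h2
  · rw [h2, zero_add]
    exact nn_le h0 k i (by simpa using h1)
  · rw [h2, add_zero]
    exact nn_le h0 k i h1

lemma tendsto_nn_sub (h0 : 0 < h) (i : ℕ) :
    Tendsto (fun k => ((nn h a k i : ℝ) - nn h (-a) k i) / 2 ^ k) atTop (𝓝 (h * a i)) := by
  have h1 := (tendsto_nn (a := a) h0 i).sub (tendsto_nn (a := -a) h0 i)
  have h2 : h * max (a i) 0 - h * max ((-a) i) 0 = h * a i := by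
    rw [← mul_sub, Pi.neg_apply]
    congr 1
    rcases le_total (a i) 0 with h3 | h3
    · rw [max_eq_right h3, max_eq_left (by linarith)]; ring
    · rw [max_eq_left h3, max_eq_right (by linarith)]; ring
  rw [h2] at h1
  refine h1.congr fun k => ?_
  rw [sub_div]

end nn

section

variable {X : Type*} [NormedAddCommGroup X] [NormedSpace ℝ X] [CompleteSpace X]
variable {Y : Type*} [NormedAddCommGroup Y] [NormedSpace ℝ Y]
variable {v : ℕ → X} {κ : ℕ → ℝ}

/-- the error of small moves -/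
noncomputable def psi (v : ℕ → X) (κ : ℕ → ℝ) (n0 : ℕ) (α : ℕ → ℝ) : ℝ :=
  √(∑ i ∈ Finset.range n0, α i * ‖v i‖) +
    ∑ i ∈ Finset.range n0, √(κ i * ‖v i‖) * (6 * α i + √(α i))

lemma psi_nonneg (n0 : ℕ) (α : ℕ → ℝ) (hα : ∀ i, 0 ≤ α i) : 0 ≤ psi v κ n0 α := by
  refine add_nonneg (Real.sqrt_nonneg _) (Finset.sum_nonneg fun i _ => ?_)
  have := hα i
  positivity

lemma tendsto_psi (n0 : ℕ) (a : ℕ → ℝ) :
    Tendsto (fun h : ℝ => psi v κ n0 fun i => h * |a i|) (𝓝[>] 0) (𝓝 0) := by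
  have hc : Continuous fun h : ℝ => psi v κ n0 fun i => h * |a i| := by
    unfold psi
    fun_prop
  have h1 := (hc.tendsto 0).mono_left (nhdsWithin_le_nhds (s := Ioi 0))
  have h2 : psi v κ n0 (fun i => (0 : ℝ) * |a i|) = 0 := by simp [psi]
  rwa [h2] at h1

/-- the shape of the differences at level `k` -/
noncomputable def dk (v : ℕ → X) (n0 : ℕ) (h : ℝ) (a : ℕ → ℝ) (k : ℕ) : X :=
  ∑ i ∈ Finset.range n0, (((nn h a k i : ℝ) - nn h (-a) k i) / 2 ^ k) • v i

lemma tendsto_dk (n0 : ℕ) {h : ℝ} (h0 : 0 < h) (a : ℕ → ℝ) :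
    Tendsto (dk v n0 h a) atTop (𝓝 (∑ i ∈ Finset.range n0, (h * a i) • v i)) :=
  tendsto_finsetSum _ fun i _ => (tendsto_nn_sub h0 i).smul_const (v i)

/-- the averaged difference of a map on the Cantor set -/
noncomputable def DD (v : ℕ → X) (κ : ℕ → ℝ) (Φ : X → Y) (j k : ℕ) : Y :=
  D (2 ^ k) (fun r => Φ (P v κ k r)) j k

lemma core (hv : Summable fun i => ‖v i‖) (hκ : ∀ i, 0 ≤ κ i) (hκ1 : ∀ i, κ i ≤ 1)
    {Φ : X → Y} {H : ℝ} (hH0 : 0 ≤ H)
    (hH : ∀ s ∈ Cs v κ, ∀ s' ∈ Cs v κ, ‖Φ s - Φ s'‖ ≤ H * √‖s - s'‖)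
    (n0 : ℕ) (a : ℕ → ℝ) {h : ℝ} (h0 : 0 < h) (ha : ∀ i < n0, h * |a i| ≤ 1)
    (U : Ultrafilter ℕ) (hU : (U : Filter ℕ) ≤ atTop) (l : ℕ → Y)
    (hl : ∀ j, Tendsto (DD v κ Φ j) U (𝓝 (l j))) (e : ℕ → ℝ) (e0 : ℝ)
    (he : ∀ᶠ k in atTop, ‖G (2 ^ k) ev (fun r => Φ (P v κ k r)) k
        (∑ i ∈ Finset.range n0, nn h a k i • ev i) -
      G (2 ^ k) ev (fun r => Φ (P v κ k r)) k
        (∑ i ∈ Finset.range n0, nn h (-a) k i • ev i)‖ ≤ e k)
    (he0 : Tendsto e atTop (𝓝 e0)) :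
    ‖∑ j ∈ Finset.range n0, (h * a j) • l j‖ ≤
      e0 + 2 * (H * psi v κ n0 fun i => h * |a i|) * ∑ j ∈ Finset.range n0, h * |a j| := by
  set B := H * psi v κ n0 fun i => h * |a i| with hB
  have hB0 : 0 ≤ B := mul_nonneg hH0 (psi_nonneg _ _ fun i => by positivity)
  have h1 : ∀ᶠ k in (U : Filter ℕ), ‖∑ j ∈ Finset.range n0,
      (((nn h a k j : ℝ) - nn h (-a) k j) / 2 ^ k) • DD v κ Φ j k‖ ≤
      e k + 2 * B * ∑ j ∈ Finset.range n0, h * |a j| := by
    filter_upwards [hU (he.and (eventually_ge_atTop n0))] with k hk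
    obtain ⟨hk1, hk2⟩ := hk
    have h2 := G_key2 (Q := 2 ^ k) (by positivity) (fun r => Φ (P v κ k r)) n0 k hk2
      (nn h a k) (nn h (-a) k) (B := B) (by
        rintro K (rfl | rfl) j hj σ hσ b hb
        · exact avg_B hv hκ hκ1 hH0 hH k k n0 hk2 _ (fun i => h * |a i|)
            (fun i => nn_div_le' h0 k i) (fun i hi => nn_le h0 k i (ha i hi)) j hj σ hσ b hb
        · exact avg_B hv hκ hκ1 hH0 hH k k n0 hk2 _ (fun i => h * |a i|)
            (fun i => by simpa using nn_div_le' (a := -a) h0 k i)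
            (fun i hi => nn_le h0 k i (by simpa using ha i hi)) j hj σ hσ b hb)
    have h3 : ∑ j ∈ Finset.range n0, (((nn h a k j : ℝ) - nn h (-a) k j) / 2 ^ k) • DD v κ Φ j k =
        ∑ j ∈ Finset.range n0, ((((2 ^ k : ℕ) : ℝ))⁻¹ * nn h a k j -
          (((2 ^ k : ℕ) : ℝ))⁻¹ * nn h (-a) k j) • D (2 ^ k) (fun r => Φ (P v κ k r)) j k := by
      refine Finset.sum_congr rfl fun j _ => ?_
      show _ • D (2 ^ k) (fun r => Φ (P v κ k r)) j k = _
      congr 1
      push_cast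
      rw [div_eq_mul_inv]
      ring
    rw [h3]
    refine h2.trans (add_le_add hk1 (mul_le_mul_of_nonneg_left ?_ (by positivity)))
    refine Finset.sum_le_sum fun j _ => ?_
    have h4 := nn_add_le (a := a) h0 k j
    push_cast at h4 ⊢
    rw [div_eq_mul_inv] at h4
    linarith
  have h5 : Tendsto (fun k => ‖∑ j ∈ Finset.range n0,
      (((nn h a k j : ℝ) - nn h (-a) k j) / 2 ^ k) • DD v κ Φ j k‖) U
      (𝓝 ‖∑ j ∈ Finset.range n0, (h * a j) • l j‖) :=
    (tendsto_finsetSum _ fun j _ => ((tendsto_nn_sub h0 j).mono_left hU).smul (hl j)).norm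
  exact le_of_tendsto_of_tendsto h5 ((he0.mono_left hU).add_const _) h1

/-- ultrafilter limits in finite dimension -/
lemma exists_ulim {V : Type*} [NormedAddCommGroup V] [NormedSpace ℝ V] [FiniteDimensional ℝ V]
    (U : Ultrafilter ℕ) (u : ℕ → V) (C : ℝ) (h : ∀ k, ‖u k‖ ≤ C) :
    ∃ l, Tendsto u U (𝓝 l) := by
  have : ProperSpace V := FiniteDimensional.proper ℝ V
  have h1 : Metric.closedBall (0 : V) C ∈ U.map u := by
    rw [Ultrafilter.mem_map]
    exact Filter.mem_of_superset Filter.univ_mem fun k _ => by simpa using h k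
  obtain ⟨l, -, hl⟩ := (isCompact_closedBall (0 : V) C).ultrafilter_le_nhds' (U.map u) h1
  exact ⟨l, hl⟩

/-- the operator from the images of the vectors -/
lemma exists_T {V : Type*} [NormedAddCommGroup V] [NormedSpace ℝ V]
    [FiniteDimensional ℝ V] (v : ℕ → X) (l : ℕ → V) (K : ℝ)
    (hbound : ∀ (n : ℕ) (a : ℕ → ℝ), ‖∑ j ∈ Finset.range n, a j • l j‖ ≤
      K * ‖∑ j ∈ Finset.range n, a j • v j‖) : ∃ T : X →L[ℝ] V, ∀ j, T (v j) = l j := by
  let c : (ℕ →₀ ℝ) →ₗ[ℝ] X := Finsupp.linearCombination ℝ v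
  let c' : (ℕ →₀ ℝ) →ₗ[ℝ] V := Finsupp.linearCombination ℝ l
  have hsum : ∀ (a : ℕ →₀ ℝ), ∃ n, c a = ∑ j ∈ Finset.range n, a j • v j ∧
      c' a = ∑ j ∈ Finset.range n, a j • l j := by
    intro a
    obtain ⟨n, hn⟩ := a.support.exists_nat_subset_range
    refine ⟨n, ?_, ?_⟩
    · show Finsupp.linearCombination ℝ v a = _
      rw [Finsupp.linearCombination_apply]
      exact Finsupp.sum_of_support_subset a hn _ (fun i _ => zero_smul _ _)
    · show Finsupp.linearCombination ℝ l a = _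
      rw [Finsupp.linearCombination_apply]
      exact Finsupp.sum_of_support_subset a hn _ (fun i _ => zero_smul _ _)
  have hcc' : ∀ a, ‖c' a‖ ≤ K * ‖c a‖ := by
    intro a
    obtain ⟨n, h1, h2⟩ := hsum a
    rw [h1, h2]
    exact hbound n a
  obtain ⟨s, hs⟩ := c.rangeRestrict.exists_rightInverse_of_surjective
    (LinearMap.range_eq_top.2 c.surjective_rangeRestrict)
  have hs' : ∀ w : LinearMap.range c, c (s w) = w := by
    intro w
    have h1 := LinearMap.congr_fun hs w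
    have h2 : (c.rangeRestrict (s w) : X) = w := congrArg Subtype.val h1
    exact h2
  let T₀ : LinearMap.range c →L[ℝ] V := (c'.comp s).mkContinuous K (fun w => by
    have h1 := hcc' (s w)
    rw [hs'] at h1
    exact h1)
  obtain ⟨T, hT⟩ := T₀.exist_extension_of_finiteDimensional_range
  have hTc : ∀ a, T (c a) = c' a := by
    intro a
    have h1 : T (c a) = T₀ ⟨c a, LinearMap.mem_range_self c a⟩ := by
      rw [hT]; rfl
    rw [h1]
    show c' (s ⟨c a, LinearMap.mem_range_self c a⟩) = c' a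
    rw [← sub_eq_zero, ← map_sub, ← norm_le_zero_iff]
    refine (hcc' _).trans ?_
    rw [map_sub, hs', sub_self, norm_zero, mul_zero]
  refine ⟨T, fun j => ?_⟩
  have h1 := hTc (Finsupp.single j 1)
  have h2 : c (Finsupp.single j 1) = v j := by
    show Finsupp.linearCombination ℝ v _ = _
    rw [Finsupp.linearCombination_single, one_smul]
  have h3 : c' (Finsupp.single j 1) = l j := by
    show Finsupp.linearCombination ℝ l _ = _
    rw [Finsupp.linearCombination_single, one_smul]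
  rwa [h2, h3] at h1

/-- averages of the jumps for the shifts `nn` -/
lemma avg_jump {h : ℝ} (h0 : 0 < h) (a : ℕ → ℝ) (k i : ℕ) (ha : h * |a i| ≤ 1) (c : ℝ)
    (g : ℝ → ℝ) (hg : ∑ q ∈ Finset.range (2 ^ k),
      g |Jf k (q + (nn h a k i + nn h (-a) k i)) - Jf k q| ≤
        c * (nn h a k i + nn h (-a) k i : ℕ)) (hc : 0 ≤ c) :
    ((2 : ℝ) ^ k)⁻¹ * ∑ q ∈ Finset.range (2 ^ k),
      g |Jf k (q + (nn h a k i + nn h (-a) k i)) - Jf k q| ≤ c * (h * |a i|) := by
  have h1 := nn_add_le (a := a) h0 k i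
  calc ((2 : ℝ) ^ k)⁻¹ * ∑ q ∈ Finset.range (2 ^ k),
        g |Jf k (q + (nn h a k i + nn h (-a) k i)) - Jf k q|
      ≤ ((2 : ℝ) ^ k)⁻¹ * (c * (nn h a k i + nn h (-a) k i : ℕ)) :=
        mul_le_mul_of_nonneg_left hg (by positivity)
    _ = c * (((nn h a k i + nn h (-a) k i : ℕ) : ℝ) / 2 ^ k) := by
        rw [div_eq_mul_inv]; ring
    _ ≤ c * (h * |a i|) := mul_le_mul_of_nonneg_left h1 hc

/-- the bound for Lipschitz maps -/
lemma lip_bound (hv : Summable fun i => ‖v i‖) (hκ : ∀ i, 0 ≤ κ i) (hκ1 : ∀ i, κ i ≤ 1)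
    (f : ℕ → X →L[ℝ] ℝ) (hf : ∀ i j, f i (v j) = if i = j then 1 else 0)
    (hκ2 : ∀ n, ∑ i ∈ Finset.range n, κ i * ‖v i‖ * ‖f i‖ ≤ 1 / 12)
    {Φ : X → Y} {L : ℝ} (hL0 : 0 ≤ L)
    (hL : ∀ s ∈ Cs v κ, ∀ s' ∈ Cs v κ, ‖Φ s - Φ s'‖ ≤ L * ‖s - s'‖)
    (U : Ultrafilter ℕ) (hU : (U : Filter ℕ) ≤ atTop) (l : ℕ → Y)
    (hl : ∀ j, Tendsto (DD v κ Φ j) U (𝓝 (l j))) (n0 : ℕ) (a : ℕ → ℝ) :
    ‖∑ j ∈ Finset.range n0, a j • l j‖ ≤ (2 * L) * ‖∑ j ∈ Finset.range n0, a j • v j‖ := by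
  obtain ⟨d, hd⟩ := (isCompact_Cs (v := v) (κ := κ) hv hκ hκ1).isBounded.exists_norm_le
  set x := ∑ j ∈ Finset.range n0, a j • v j with hx
  -- Hölder bound
  set H := L * √(2 * |d|) with hH
  have hH0 : 0 ≤ H := by positivity
  have hHol : ∀ s ∈ Cs v κ, ∀ s' ∈ Cs v κ, ‖Φ s - Φ s'‖ ≤ H * √‖s - s'‖ := by
    intro s hs s' hs'
    refine (hL s hs s' hs').trans ?_
    rw [hH, mul_assoc]
    refine mul_le_mul_of_nonneg_left ?_ hL0
    have h1 : ‖s - s'‖ ≤ 2 * |d| := by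
      have h2 := hd s hs
      have h3 := hd s' hs'
      have h4 := norm_sub_le s s'
      have h5 := le_abs_self d
      linarith
    calc ‖s - s'‖ = √‖s - s'‖ * √‖s - s'‖ := (Real.mul_self_sqrt (norm_nonneg _)).symm
      _ ≤ √(2 * |d|) * √‖s - s'‖ :=
        mul_le_mul_of_nonneg_right (Real.sqrt_le_sqrt h1) (Real.sqrt_nonneg _)
  have hai : ∀ i < n0, |a i| ≤ ‖f i‖ * ‖x‖ := by
    intro i hi
    have h1 : f i x = a i := by
      rw [hx, map_sum, Finset.sum_eq_single i]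
      · rw [map_smul, hf, if_pos rfl, smul_eq_mul, mul_one]
      · intro j _ hj
        rw [map_smul, hf, if_neg hj.symm, smul_zero]
      · intro h; exact absurd (Finset.mem_range.2 hi) h
    rw [← h1, ← Real.norm_eq_abs]
    exact (f i).le_opNorm x
  have hsum : ∑ i ∈ Finset.range n0, κ i * ‖v i‖ * (12 * |a i|) ≤ ‖x‖ := by
    calc ∑ i ∈ Finset.range n0, κ i * ‖v i‖ * (12 * |a i|)
        ≤ ∑ i ∈ Finset.range n0, κ i * ‖v i‖ * ‖f i‖ * (12 * ‖x‖) := by
          refine Finset.sum_le_sum fun i hi => ?_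
          have h1 := hai i (Finset.mem_range.1 hi)
          have h2 : 0 ≤ κ i * ‖v i‖ := mul_nonneg (hκ i) (norm_nonneg _)
          calc κ i * ‖v i‖ * (12 * |a i|) ≤ κ i * ‖v i‖ * (12 * (‖f i‖ * ‖x‖)) :=
                mul_le_mul_of_nonneg_left (by linarith) h2
            _ = κ i * ‖v i‖ * ‖f i‖ * (12 * ‖x‖) := by ring
      _ = (∑ i ∈ Finset.range n0, κ i * ‖v i‖ * ‖f i‖) * (12 * ‖x‖) := by
          rw [Finset.sum_mul]
      _ ≤ (1 / 12) * (12 * ‖x‖) := mul_le_mul_of_nonneg_right (hκ2 n0) (by positivity)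
      _ = ‖x‖ := by ring
  -- the bound at scale `h`
  obtain ⟨h1, hh1, hha⟩ : ∃ h1 : ℝ, 0 < h1 ∧ ∀ i < n0, h1 * |a i| ≤ 1 := by
    refine ⟨1 / (1 + ∑ i ∈ Finset.range n0, |a i|), ?_, fun i hi => ?_⟩
    · have : 0 ≤ ∑ i ∈ Finset.range n0, |a i| := Finset.sum_nonneg fun i _ => abs_nonneg _
      positivity
    · have h2 : |a i| ≤ ∑ i ∈ Finset.range n0, |a i| :=
        Finset.single_le_sum (fun i _ => abs_nonneg (a i)) (Finset.mem_range.2 hi)
      have h3 := abs_nonneg (a i)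
      rw [div_mul_eq_mul_div, div_le_iff₀ (by linarith)]
      linarith
  have key : ∀ h : ℝ, 0 < h → h ≤ h1 → ‖∑ j ∈ Finset.range n0, a j • l j‖ ≤
      (2 * L) * ‖x‖ + 2 * (H * psi v κ n0 fun i => h * |a i|) * ∑ j ∈ Finset.range n0, |a j| := by
    intro h h0 hle
    have ha : ∀ i < n0, h * |a i| ≤ 1 := fun i hi =>
      (mul_le_mul_of_nonneg_right hle (abs_nonneg _)).trans (hha i hi)
    have h2 := core hv hκ hκ1 hH0 hHol n0 a h0 ha U hU l hl
      (fun k => L * (‖dk v n0 h a k‖ +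
        ∑ i ∈ Finset.range n0, κ i * ‖v i‖ * (12 * (h * |a i|))))
      (L * (‖∑ i ∈ Finset.range n0, (h * a i) • v i‖ +
        ∑ i ∈ Finset.range n0, κ i * ‖v i‖ * (12 * (h * |a i|))))
      (by
        filter_upwards [eventually_ge_atTop n0] with k hk
        refine (avg_E hv hκ hκ1 k k n0 hk (nn h a k) (nn h (-a) k)
          (fun i hi => nn_le h0 k i (ha i hi))
          (fun i hi => nn_le h0 k i (by simpa using ha i hi)) (nn_or h a k) L
          ‖dk v n0 h a k‖ (fun i t => κ i * ‖v i‖ * t) (fun s hs s' hs' J _ hJ => ?_)).trans ?_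
        · exact (hL s hs s' hs').trans (mul_le_mul_of_nonneg_left hJ hL0)
        · refine mul_le_mul_of_nonneg_left (add_le_add le_rfl
            (Finset.sum_le_sum fun i hi => ?_)) hL0
          rw [← Finset.mul_sum, mul_left_comm]
          refine mul_le_mul_of_nonneg_left ?_ (mul_nonneg (hκ i) (norm_nonneg _))
          exact avg_jump h0 a k i (ha i (Finset.mem_range.1 hi)) 12 (fun t => t)
            (sum_abs_le k _ (nn_add_le_pow h0 k i (ha i (Finset.mem_range.1 hi)))) (by norm_num))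
      (((tendsto_dk n0 h0 a).norm.add_const _).const_mul L)
    have e1 : ∑ j ∈ Finset.range n0, (h * a j) • l j = h • ∑ j ∈ Finset.range n0, a j • l j := by
      rw [Finset.smul_sum]
      exact Finset.sum_congr rfl fun j _ => mul_smul _ _ _
    have e2 : ∑ j ∈ Finset.range n0, (h * a j) • v j = h • x := by
      rw [hx, Finset.smul_sum]
      exact Finset.sum_congr rfl fun j _ => mul_smul _ _ _
    have e3 : ∑ i ∈ Finset.range n0, κ i * ‖v i‖ * (12 * (h * |a i|)) =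
        h * ∑ i ∈ Finset.range n0, κ i * ‖v i‖ * (12 * |a i|) := by
      rw [Finset.mul_sum]
      exact Finset.sum_congr rfl fun i _ => by ring
    have e4 : ∑ j ∈ Finset.range n0, h * |a j| = h * ∑ j ∈ Finset.range n0, |a j| :=
      (Finset.mul_sum _ _ _).symm
    rw [e1, e2, e3, e4, norm_smul, norm_smul, Real.norm_of_nonneg h0.le] at h2
    have h3 : h * ‖∑ j ∈ Finset.range n0, a j • l j‖ ≤ h * ((2 * L) * ‖x‖ +
        2 * (H * psi v κ n0 fun i => h * |a i|) * ∑ j ∈ Finset.range n0, |a j|) := by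
      refine h2.trans ?_
      have h4 : L * (h * ∑ i ∈ Finset.range n0, κ i * ‖v i‖ * (12 * |a i|)) ≤ L * (h * ‖x‖) :=
        mul_le_mul_of_nonneg_left (mul_le_mul_of_nonneg_left hsum h0.le) hL0
      have h5 : h * ((2 * L) * ‖x‖ +
          2 * (H * psi v κ n0 fun i => h * |a i|) * ∑ j ∈ Finset.range n0, |a j|) =
          L * (h * ‖x‖) + L * (h * ‖x‖) +
          2 * (H * psi v κ n0 fun i => h * |a i|) * (h * ∑ j ∈ Finset.range n0, |a j|) := by ring
      rw [h5]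
      refine add_le_add ?_ le_rfl
      rw [mul_add]
      exact add_le_add le_rfl h4
    exact le_of_mul_le_mul_left h3 h0
  have hlim : Tendsto (fun h : ℝ => (2 * L) * ‖x‖ +
      2 * (H * psi v κ n0 fun i => h * |a i|) * ∑ j ∈ Finset.range n0, |a j|) (𝓝[>] 0)
      (𝓝 ((2 * L) * ‖x‖ + 2 * (H * 0) * ∑ j ∈ Finset.range n0, |a j|)) :=
    tendsto_const_nhds.add
      ((((tendsto_psi n0 a).const_mul H).const_mul 2).mul_const _)
  have h6 := ge_of_tendsto hlim (by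
    filter_upwards [Ioo_mem_nhdsGT hh1] with h hh
    exact key h hh.1 hh.2.le)
  simpa using h6

end

end Pool.Agent.Y53.FP
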