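import Pool.Agent.Y53.FP.Lin

/-!
Linearization of Lipschitz maps on the Cantor set with values in a finite dimensional space, II.
-/

set_option autoImplicit false
set_option linter.unusedSectionVars false

open Set Filter Topology

namespace Pool.Agent.Y53.FP

section

variable {X : Type*} [NormedAddCommGroup X] [NormedSpace ℝ X] [CompleteSpace X]
variable {v : ℕ → X} {κ : ℕ → ℝ}

/-- the averaged differences of the identity -/
lemma DD_id (hv : Summable fun i => ‖v i‖) (hκ : ∀ i, 0 ≤ κ i) (hκ1 : ∀ i, κ i ≤ 1)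
    (j k : ℕ) : DD v κ (fun s : X => s) j k = (1 + κ j) • v j := by
  have hQ : 0 < 2 ^ k := by positivity
  show D (2 ^ k) (fun r => P v κ k r) j k = _
  unfold D
  set w : ℕ → A := Function.update ev j 0 with hw
  have h0 : G (2 ^ k) w (fun r => P v κ k r + (1 + κ j) • v j) k 0 =
      G (2 ^ k) w (fun r => P v κ k r) k 0 + (1 + κ j) • v j := by
    have h1 : G (2 ^ k) w (fun r => P v κ k r + (1 + κ j) • v j) k 0 =
        G (2 ^ k) w (fun r => P v κ k r) k 0 + G (2 ^ k) w (fun _ => (1 + κ j) • v j) k 0 :=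
      congrFun (G_add (2 ^ k) w (fun r => P v κ k r) (fun _ => (1 + κ j) • v j) k) 0
    rw [h1, G_const hQ]
  have h1 : G (2 ^ k) w (fun r => P v κ k (r + 2 ^ k • ev j)) k 0 =
      G (2 ^ k) w (fun r => P v κ k r) k (2 ^ k • ev j) := by
    rw [G_shift (2 ^ k) w (fun r => P v κ k r) (2 ^ k • ev j) k 0, zero_add]
  have h2 := G_sub_le hQ w (F := fun r => P v κ k (r + 2 ^ k • ev j))
    (F' := fun r => P v κ k r + (1 + κ j) • v j) (ρ := fun _ => 0) k 0 (fun t ht => by
      rw [zero_add]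
      set r : A := ∑ i ∈ Finset.range k, t i • w i with hr
      have hri : ∀ i, r i = if i < k ∧ i ≠ j then t i else 0 := fun i => sum_upd t j k i
      have hrj : r j = 0 := by rw [hri]; simp
      have hrb : ∀ i, r i < 2 ^ k := by
        intro i
        rw [hri]
        split_ifs
        · exact ht i
        · exact hQ
      have hyi : ∀ i, (r + 2 ^ k • ev j) i = if i = j then 2 ^ k else r i := by
        intro i
        by_cases h : i = j
        · subst h; simp [ev_self, hrj]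
        · simp [ev_ne h, h]
      have h3 := P_sub hv hκ hκ1 k (r + 2 ^ k • ev j) r (j + 1) (fun i hi => by
        rw [hyi, if_neg (by omega)]) (fun i _ => by
        rw [hyi, pow_succ]
        have := hrb i
        split_ifs <;> omega) (fun i _ => by
        rw [pow_succ]
        have := hrb i
        omega)
      have h5 : Jf k 0 = 0 := le_antisymm (by
        have := Jf_le k 0 (by positivity); simpa using this) (Jf_nonneg _ _)
      have h6 : Jf k (2 ^ k) = 1 := by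
        have := Jf_top k 0 (by positivity)
        rwa [add_zero, h5, add_zero] at this
      have h4 : P v κ k (r + 2 ^ k • ev j) - P v κ k r = (1 + κ j) • v j := by
        rw [h3, Finset.sum_eq_single j]
        · rw [hyi, if_pos rfl, hrj, h5, h6]
          congr 1
          push_cast
          rw [sub_zero, sub_zero, mul_one, div_self (by positivity)]
        · intro i _ hij
          rw [hyi, if_neg hij]
          simp
        · intro h; exact absurd (Finset.mem_range.2 (Nat.lt_succ_self j)) h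
      rw [← sub_sub, h4, sub_self, norm_zero])
  rw [h1, h0, G_const hQ] at h2
  rw [← sub_eq_zero, ← norm_le_zero_iff]
  refine le_trans (le_of_eq ?_) h2
  congr 1
  abel

/-- the averaged differences of the difference to the identity -/
lemma DD_R {V : Type*} [NormedAddCommGroup V] [NormedSpace ℝ V] (ι : V →L[ℝ] X) (φ : X → V)
    (hv : Summable fun i => ‖v i‖) (hκ : ∀ i, 0 ≤ κ i) (hκ1 : ∀ i, κ i ≤ 1) (j k : ℕ) :
    DD v κ (fun s => ι (φ s) - s) j k = ι (DD v κ φ j k) - (1 + κ j) • v j := by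
  rw [← DD_id hv hκ hκ1 j k]
  show D (2 ^ k) (fun r => ι (φ (P v κ k r)) - P v κ k r) j k =
    ι (D (2 ^ k) (fun r => φ (P v κ k r)) j k) - D (2 ^ k) (fun r => P v κ k r) j k
  have h1 : ∀ (w : ℕ → A) (z : A), G (2 ^ k) w (fun r => ι (φ (P v κ k r)) - P v κ k r) k z =
      ι (G (2 ^ k) w (fun r => φ (P v κ k r)) k z) - G (2 ^ k) w (fun r => P v κ k r) k z := by
    intro w z
    have h2 : G (2 ^ k) w (fun r => (ι (φ (P v κ k r)) - P v κ k r) + P v κ k r) k z =
        G (2 ^ k) w (fun r => ι (φ (P v κ k r)) - P v κ k r) k z +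
          G (2 ^ k) w (fun r => P v κ k r) k z :=
      congrFun (G_add (2 ^ k) w (fun r => ι (φ (P v κ k r)) - P v κ k r)
        (fun r => P v κ k r) k) z
    have h3 : G (2 ^ k) w (fun r => ι (φ (P v κ k r))) k z =
        ι (G (2 ^ k) w (fun r => φ (P v κ k r)) k z) :=
      congrFun (G_comp ι (2 ^ k) w (fun r => φ (P v κ k r)) k) z
    simp only [sub_add_cancel] at h2
    rw [← h3, h2]
    abel
  unfold D
  rw [h1, h1, map_sub]
  abel

/-- the pointwise bound for a map with a Hoelder bound and a bound at the scale `h` -/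
lemma pointwise {R : X → X} {H h η : ℝ} (hH0 : 0 ≤ H) (h0 : 0 < h) (hη : 0 < η) (nx : ℝ)
    (hnx : 0 ≤ nx)
    (hH : ∀ s ∈ Cs v κ, ∀ s' ∈ Cs v κ, ‖R s - R s'‖ ≤ H * √‖s - s'‖)
    (hS : ∀ s ∈ Cs v κ, ∀ s' ∈ Cs v κ, ‖s - s'‖ ≤ h * (nx + η) → ‖R s - R s'‖ ≤ H * h)
    (dd ρ : ℝ) (hρ : 0 ≤ ρ) (hdd : dd ≤ h * (nx + η / 2))
    (s : X) (hs : s ∈ Cs v κ) (s' : X) (hs' : s' ∈ Cs v κ) (hd : ‖s - s'‖ ≤ dd + ρ) :
    ‖R s - R s'‖ ≤ H * (h + (√ρ + (√(nx + η) * rt h * rt (2 / η)) * rt ρ)) := by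
  have hq : 0 ≤ √(nx + η) * rt h * rt (2 / η) :=
    mul_nonneg (mul_nonneg (Real.sqrt_nonneg _) (rt_nonneg _)) (rt_nonneg _)
  rcases le_total ρ (h * (η / 2)) with h1 | h1
  · refine (hS s hs s' hs' (hd.trans (by nlinarith))).trans ?_
    refine mul_le_mul_of_nonneg_left ?_ hH0
    have := mul_nonneg hq (rt_nonneg ρ)
    have := Real.sqrt_nonneg ρ
    linarith
  · refine (hH s hs s' hs').trans (mul_le_mul_of_nonneg_left ?_ hH0)
    have h2 : ‖s - s'‖ ≤ h * (nx + η) + ρ := by nlinarith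
    have h3 : √‖s - s'‖ ≤ √(h * (nx + η)) + √ρ :=
      (Real.sqrt_le_sqrt h2).trans (sqrt_add_le _ _ (by positivity) hρ)
    have h4 : √(h * (nx + η)) = rt h * rt h * √(nx + η) := by
      rw [Real.sqrt_mul h0.le, rt_sq]
    have h5 : rt h ≤ rt (2 / η) * rt ρ := by
      rw [← rt_mul _ _ (by positivity)]
      refine rt_mono ?_
      rw [div_mul_eq_mul_div, le_div_iff₀ hη]
      linarith
    have h6 : rt h * rt h * √(nx + η) ≤ √(nx + η) * rt h * rt (2 / η) * rt ρ := by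
      calc rt h * rt h * √(nx + η) ≤ rt h * (rt (2 / η) * rt ρ) * √(nx + η) :=
            mul_le_mul_of_nonneg_right (mul_le_mul_of_nonneg_left h5 (rt_nonneg _))
              (Real.sqrt_nonneg _)
        _ = _ := by ring
    rw [h4] at h3
    linarith

/-- **Linearization.** -/
theorem linearize (hv : Summable fun i => ‖v i‖) (hκ : ∀ i, 0 ≤ κ i) (hκ1 : ∀ i, κ i ≤ 1)
    (f : ℕ → X →L[ℝ] ℝ) (hf : ∀ i j, f i (v j) = if i = j then 1 else 0)
    (hκ2 : ∀ n, ∑ i ∈ Finset.range n, κ i * ‖v i‖ * ‖f i‖ ≤ 1 / 12)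
    {V : Type*} [NormedAddCommGroup V] [NormedSpace ℝ V] [FiniteDimensional ℝ V]
    (ι : V →L[ℝ] X) (φ : X → V) {L : ℝ} (hL0 : 0 ≤ L)
    (hL : ∀ s ∈ Cs v κ, ∀ s' ∈ Cs v κ, ‖φ s - φ s'‖ ≤ L * ‖s - s'‖) :
    ∃ T : X →L[ℝ] V, ∀ (n0 : ℕ) (a : ℕ → ℝ) (h H η : ℝ), 0 < h → 0 ≤ H → 0 < η →
      (∀ i < n0, h * |a i| ≤ 1) →
      (∀ s ∈ Cs v κ, ∀ s' ∈ Cs v κ, ‖(ι (φ s) - s) - (ι (φ s') - s')‖ ≤ H * √‖s - s'‖) →
      (∀ s ∈ Cs v κ, ∀ s' ∈ Cs v κ, ‖s - s'‖ ≤ h * (‖∑ i ∈ Finset.range n0, a i • v i‖ + η) →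
        ‖(ι (φ s) - s) - (ι (φ s') - s')‖ ≤ H * h) →
      ‖ι (T (∑ i ∈ Finset.range n0, a i • v i)) - ∑ i ∈ Finset.range n0, a i • v i‖ ≤
        H * (1 + (∑ i ∈ Finset.range n0, √(κ i * ‖v i‖) * (6 * |a i|) +
          (√(‖∑ i ∈ Finset.range n0, a i • v i‖ + η) * rt h * rt (2 / η)) *
            ∑ i ∈ Finset.range n0, rt (κ i * ‖v i‖) * (3 * |a i|))) +
        2 * (H * psi v κ n0 fun i => h * |a i|) * ∑ j ∈ Finset.range n0, |a j| +
        ∑ i ∈ Finset.range n0, κ i * ‖v i‖ * |a i| := by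
  obtain ⟨d, hd⟩ := (isCompact_Cs (v := v) (κ := κ) hv hκ hκ1).isBounded.exists_norm_le
  have hdiff : ∀ s ∈ Cs v κ, ∀ s' ∈ Cs v κ, ‖φ s - φ s'‖ ≤ L * (2 * |d|) := by
    intro s hs s' hs'
    refine (hL s hs s' hs').trans (mul_le_mul_of_nonneg_left ?_ hL0)
    have h2 := hd s hs
    have h3 := hd s' hs'
    have h4 := norm_sub_le s s'
    have h5 := le_abs_self d
    linarith
  let U : Ultrafilter ℕ := Ultrafilter.of atTop
  have hU : (U : Filter ℕ) ≤ atTop := Ultrafilter.of_le atTop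
  have hbd : ∀ j k, ‖DD v κ φ j k‖ ≤ L * (2 * |d|) := by
    intro j k
    have hQ : 0 < 2 ^ k := by positivity
    have h1 := G_diff_le hQ (Function.update ev j 0) (F := fun r => φ (P v κ k r))
      (ρ := fun _ => L * (2 * |d|)) k 0 (2 ^ k • ev j) 0
      (fun t _ => hdiff _ (P_mem _ _) _ (P_mem _ _))
    rw [G_const hQ, zero_add, add_zero] at h1
    exact h1
  have hlim : ∀ j, ∃ l, Tendsto (DD v κ φ j) U (𝓝 l) := fun j => exists_ulim U _ _ (hbd j)
  choose l hl using hlim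
  obtain ⟨T, hT⟩ := exists_T v l (2 * L)
    (fun n a => lip_bound hv hκ hκ1 f hf hκ2 hL0 hL U hU l hl n a)
  refine ⟨T, fun n0 a h H η h0 hH0 hη ha hH hS => ?_⟩
  set x := ∑ i ∈ Finset.range n0, a i • v i with hx
  set q := √(‖x‖ + η) * rt h * rt (2 / η) with hq
  have hq0 : 0 ≤ q := mul_nonneg (mul_nonneg (Real.sqrt_nonneg _) (rt_nonneg _)) (rt_nonneg _)
  have hlR : ∀ j, Tendsto (DD v κ (fun s => ι (φ s) - s) j) U (𝓝 (ι (l j) - (1 + κ j) • v j)) := by
    intro j
    have h1 := (((ι.continuous.tendsto _).comp (hl j))).sub_const ((1 + κ j) • v j)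
    refine h1.congr fun k => ?_
    exact (DD_R ι φ hv hκ hκ1 j k).symm
  have hsx : ∑ i ∈ Finset.range n0, (h * a i) • v i = h • x := by
    rw [hx, Finset.smul_sum]
    exact Finset.sum_congr rfl fun j _ => mul_smul _ _ _
  have hcore := core hv hκ hκ1 hH0 hH n0 a h0 ha U hU _ hlR
    (fun _ => H * (h + ∑ i ∈ Finset.range n0, (√(κ i * ‖v i‖) * (6 * (h * |a i|)) +
      q * (rt (κ i * ‖v i‖) * (3 * (h * |a i|))))))
    (H * (h + ∑ i ∈ Finset.range n0, (√(κ i * ‖v i‖) * (6 * (h * |a i|)) +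
      q * (rt (κ i * ‖v i‖) * (3 * (h * |a i|))))))
    (by
      have h1 : Tendsto (fun k => ‖dk v n0 h a k‖) atTop (𝓝 (h * ‖x‖)) := by
        have h2 := (tendsto_dk (v := v) n0 h0 a).norm
        rwa [hsx, norm_smul, Real.norm_of_nonneg h0.le] at h2
      have h3 : h * ‖x‖ < h * (‖x‖ + η / 2) := mul_lt_mul_of_pos_left (by linarith) h0
      filter_upwards [eventually_ge_atTop n0, h1.eventually (gt_mem_nhds h3)] with k hk hk2
      refine (avg_E (Φ := fun s : X => ι (φ s) - s) hv hκ hκ1 k k n0 hk (nn h a k) (nn h (-a) k)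
        (fun i hi => nn_le h0 k i (ha i hi))
        (fun i hi => nn_le h0 k i (by simpa using ha i hi)) (nn_or h a k) H
        h (fun i t => √(κ i * ‖v i‖) * √t + q * (rt (κ i * ‖v i‖) * rt t))
        (fun s hs s' hs' J hJ0 hJ => ?_)).trans ?_
      · set ρ := ∑ i ∈ Finset.range n0, κ i * ‖v i‖ * J i with hρ
        have hnn : ∀ i, 0 ≤ κ i * ‖v i‖ := fun i => mul_nonneg (hκ i) (norm_nonneg _)
        have hρ0 : 0 ≤ ρ := Finset.sum_nonneg fun i _ => mul_nonneg (hnn i) (hJ0 i)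
        refine (pointwise (v := v) (κ := κ) (R := fun s => ι (φ s) - s) hH0 h0 hη ‖x‖
          (norm_nonneg _) hH hS _ ρ hρ0 hk2.le s hs s' hs' hJ).trans ?_
        refine mul_le_mul_of_nonneg_left (add_le_add le_rfl ?_) hH0
        rw [Finset.sum_add_distrib, ← Finset.mul_sum]
        refine add_le_add ?_ (mul_le_mul_of_nonneg_left ?_ hq0)
        · refine (sqrt_sum_le _ _ fun i _ => mul_nonneg (hnn i) (hJ0 i)).trans (le_of_eq ?_)
          exact Finset.sum_congr rfl fun i _ => Real.sqrt_mul (hnn i) _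
        · refine (rt_sum_le _ _ fun i _ => mul_nonneg (hnn i) (hJ0 i)).trans (le_of_eq ?_)
          exact Finset.sum_congr rfl fun i _ => rt_mul _ _ (hnn i)
      · refine mul_le_mul_of_nonneg_left (add_le_add le_rfl
          (Finset.sum_le_sum fun i hi => ?_)) hH0
        have hi' := Finset.mem_range.1 hi
        rw [Finset.sum_add_distrib, mul_add, ← Finset.mul_sum, ← Finset.mul_sum,
          ← Finset.mul_sum, mul_left_comm, mul_left_comm _ q, mul_left_comm _ (rt _)]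
        refine add_le_add (mul_le_mul_of_nonneg_left ?_ (Real.sqrt_nonneg _))
          (mul_le_mul_of_nonneg_left (mul_le_mul_of_nonneg_left ?_ (rt_nonneg _)) hq0)
        · exact avg_jump h0 a k i (ha i hi') 6 (fun t => √t)
            (sum_sqrt_le k _ (nn_add_le_pow h0 k i (ha i hi'))) (by norm_num)
        · exact avg_jump h0 a k i (ha i hi') 3 rt
            (sum_rt_le k _ (nn_add_le_pow h0 k i (ha i hi'))) (by norm_num))
    tendsto_const_nhds
  -- rewriting
  have e1 : ∑ j ∈ Finset.range n0, (h * a j) • (ι (l j) - (1 + κ j) • v j) =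
      h • (ι (T x) - x - ∑ i ∈ Finset.range n0, (κ i * a i) • v i) := by
    rw [hx, map_sum, map_sum, ← Finset.sum_sub_distrib, ← Finset.sum_sub_distrib, Finset.smul_sum]
    refine Finset.sum_congr rfl fun j _ => ?_
    rw [map_smul, map_smul, hT, mul_smul]
    congr 1
    rw [smul_sub, smul_smul, sub_sub]
    congr 1
    rw [← add_smul]
    congr 1
    ring
  have e2 : ∑ i ∈ Finset.range n0, (√(κ i * ‖v i‖) * (6 * (h * |a i|)) +
      q * (rt (κ i * ‖v i‖) * (3 * (h * |a i|)))) =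
      h * (∑ i ∈ Finset.range n0, √(κ i * ‖v i‖) * (6 * |a i|) +
        q * ∑ i ∈ Finset.range n0, rt (κ i * ‖v i‖) * (3 * |a i|)) := by
    rw [Finset.mul_sum, ← Finset.sum_add_distrib, Finset.mul_sum]
    exact Finset.sum_congr rfl fun i _ => by ring
  have e3 : ∑ j ∈ Finset.range n0, h * |a j| = h * ∑ j ∈ Finset.range n0, |a j| :=
    (Finset.mul_sum _ _ _).symm
  rw [e1, e2, e3, norm_smul, Real.norm_of_nonneg h0.le] at hcore
  have h5 : ‖ι (T x) - x - ∑ i ∈ Finset.range n0, (κ i * a i) • v i‖ ≤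
      H * (1 + (∑ i ∈ Finset.range n0, √(κ i * ‖v i‖) * (6 * |a i|) +
        q * ∑ i ∈ Finset.range n0, rt (κ i * ‖v i‖) * (3 * |a i|))) +
      2 * (H * psi v κ n0 fun i => h * |a i|) * ∑ j ∈ Finset.range n0, |a j| := by
    refine le_of_mul_le_mul_left (hcore.trans (le_of_eq ?_)) h0
    ring
  have h6 : ‖∑ i ∈ Finset.range n0, (κ i * a i) • v i‖ ≤
      ∑ i ∈ Finset.range n0, κ i * ‖v i‖ * |a i| := by
    refine (norm_sum_le _ _).trans (Finset.sum_le_sum fun i _ => ?_)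
    rw [norm_smul, Real.norm_eq_abs, abs_mul, abs_of_nonneg (hκ i)]
    exact le_of_eq (by ring)
  have h7 : ‖ι (T x) - x‖ ≤ ‖ι (T x) - x - ∑ i ∈ Finset.range n0, (κ i * a i) • v i‖ +
      ‖∑ i ∈ Finset.range n0, (κ i * a i) • v i‖ := by
    have := norm_add_le (ι (T x) - x - ∑ i ∈ Finset.range n0, (κ i * a i) • v i)
      (∑ i ∈ Finset.range n0, (κ i * a i) • v i)
    rwa [sub_add_cancel] at this
  linarith

end

end Pool.Agent.Y53.FP
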