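import Pool.Agent.Y53.FP.Lin2
import Pool.Agent.Y53.FP.Ctrl
import Pool.Agent.Y53.FP.Bio

/-!
Every Banach space without the approximation property contains a Cantor set whose Lipschitz free
`p`-spaces fail the approximation property.
-/

set_option autoImplicit false
set_option linter.unusedSectionVars false

open Set Filter Topology
open Pool.Agent.H548R3.PFree

namespace Pool.Agent.Y53.FP

section

variable {X : Type*} [NormedAddCommGroup X] [NormedSpace ℝ X]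

/-- the choice of the small constants -/
lemma exists_kappa (v : ℕ → X) (f : ℕ → X →L[ℝ] ℝ) (Cx : ℝ) (hCx : 0 ≤ Cx) :
    ∃ κ : ℕ → ℝ, (∀ i, 0 < κ i) ∧ (∀ i, κ i ≤ 1) ∧
      (∀ n, ∑ i ∈ Finset.range n, κ i * ‖v i‖ * ‖f i‖ ≤ 1 / 12) ∧
      ∀ (n : ℕ) (a : ℕ → ℝ) (x : ℝ), 0 ≤ x → x ≤ Cx → (∀ i < n, |a i| ≤ ‖f i‖ * x) →
        ∑ i ∈ Finset.range n, √(κ i * ‖v i‖) * (6 * |a i|) ≤ 1 ∧
        ∑ i ∈ Finset.range n, κ i * ‖v i‖ * |a i| ≤ 1 / 50 := by
  set c : ℝ := 1 / (100 * (1 + Cx)) with hc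
  have hc0 : 0 < c := by positivity
  have hcC : c * Cx ≤ 1 / 100 := by
    rw [hc, one_div, inv_mul_le_iff₀ (by positivity)]
    linarith
  have hc1 : c ≤ 1 / 100 := by
    rw [hc]
    refine one_div_le_one_div_of_le (by norm_num) (by linarith)
  set t : ℕ → ℝ := fun i => c * (1 / 2) ^ i / (1 + ‖f i‖) with ht
  have ht0 : ∀ i, 0 < t i := fun i => by positivity
  have htf : ∀ i, t i * ‖f i‖ ≤ c * (1 / 2) ^ i := by
    intro i
    simp only [ht]
    rw [div_mul_eq_mul_div, div_le_iff₀ (by positivity)]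
    refine mul_le_mul_of_nonneg_left ?_ (by positivity)
    linarith
  have ht1 : ∀ i, t i ≤ 1 := by
    intro i
    simp only [ht]
    rw [div_le_one (by positivity)]
    have h1 : (1 / 2 : ℝ) ^ i ≤ 1 := pow_le_one₀ (by norm_num) (by norm_num)
    have h2 := norm_nonneg (f i)
    have h3 : (0 : ℝ) < (1 / 2) ^ i := by positivity
    nlinarith
  have hgeom : ∀ n, ∑ i ∈ Finset.range n, c * (1 / 2) ^ i ≤ 2 * c := by
    intro n
    rw [← Finset.mul_sum]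
    have := sum_geometric_two_le n
    nlinarith
  have hκv : ∀ i, t i ^ 2 / (1 + ‖v i‖) * ‖v i‖ ≤ t i ^ 2 := by
    intro i
    rw [div_mul_eq_mul_div, div_le_iff₀ (by positivity)]
    refine mul_le_mul_of_nonneg_left ?_ (by positivity)
    linarith
  have hκv' : ∀ i, t i ^ 2 / (1 + ‖v i‖) * ‖v i‖ ≤ t i := by
    intro i
    refine (hκv i).trans ?_
    have := ht0 i
    have := ht1 i
    nlinarith
  have hsq : ∀ i, √(t i ^ 2 / (1 + ‖v i‖) * ‖v i‖) ≤ t i := by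
    intro i
    rw [Real.sqrt_le_left (ht0 i).le]
    exact hκv i
  refine ⟨fun i => t i ^ 2 / (1 + ‖v i‖), fun i => ?_, fun i => ?_, fun n => ?_,
    fun n a x hx0 hx ha => ⟨?_, ?_⟩⟩
  · have := ht0 i
    positivity
  · rw [div_le_one (by positivity)]
    have := ht0 i
    have := ht1 i
    have := norm_nonneg (v i)
    nlinarith
  · calc ∑ i ∈ Finset.range n, t i ^ 2 / (1 + ‖v i‖) * ‖v i‖ * ‖f i‖
        ≤ ∑ i ∈ Finset.range n, c * (1 / 2) ^ i := by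
          refine Finset.sum_le_sum fun i _ => ?_
          exact (mul_le_mul_of_nonneg_right (hκv' i) (norm_nonneg _)).trans (htf i)
      _ ≤ 2 * c := hgeom n
      _ ≤ 1 / 12 := by linarith
  · calc ∑ i ∈ Finset.range n, √(t i ^ 2 / (1 + ‖v i‖) * ‖v i‖) * (6 * |a i|)
        ≤ ∑ i ∈ Finset.range n, (6 * x) * (c * (1 / 2) ^ i) := by
          refine Finset.sum_le_sum fun i hi => ?_
          have h1 := ha i (Finset.mem_range.1 hi)
          calc √(t i ^ 2 / (1 + ‖v i‖) * ‖v i‖) * (6 * |a i|) ≤ t i * (6 * (‖f i‖ * x)) :=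
                mul_le_mul (hsq i) (by linarith) (by positivity) (ht0 i).le
            _ = (6 * x) * (t i * ‖f i‖) := by ring
            _ ≤ (6 * x) * (c * (1 / 2) ^ i) :=
                mul_le_mul_of_nonneg_left (htf i) (by positivity)
      _ = (6 * x) * ∑ i ∈ Finset.range n, c * (1 / 2) ^ i := by rw [Finset.mul_sum]
      _ ≤ (6 * x) * (2 * c) := mul_le_mul_of_nonneg_left (hgeom n) (by positivity)
      _ ≤ 1 := by nlinarith
  · calc ∑ i ∈ Finset.range n, t i ^ 2 / (1 + ‖v i‖) * ‖v i‖ * |a i|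
        ≤ ∑ i ∈ Finset.range n, x * (c * (1 / 2) ^ i) := by
          refine Finset.sum_le_sum fun i hi => ?_
          have h1 := ha i (Finset.mem_range.1 hi)
          calc t i ^ 2 / (1 + ‖v i‖) * ‖v i‖ * |a i| ≤ t i * (‖f i‖ * x) :=
                mul_le_mul (hκv' i) h1 (abs_nonneg _) (ht0 i).le
            _ = x * (t i * ‖f i‖) := by ring
            _ ≤ x * (c * (1 / 2) ^ i) := mul_le_mul_of_nonneg_left (htf i) hx0
      _ = x * ∑ i ∈ Finset.range n, c * (1 / 2) ^ i := by rw [Finset.mul_sum]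
      _ ≤ x * (2 * c) := mul_le_mul_of_nonneg_left (hgeom n) hx0
      _ ≤ 1 / 50 := by nlinarith

lemma tendsto_rt : Tendsto rt (𝓝[>] 0) (𝓝 0) := by
  have hc : Continuous rt := Real.continuous_sqrt.comp Real.continuous_sqrt
  have h1 := (hc.tendsto 0).mono_left (nhdsWithin_le_nhds (s := Ioi 0))
  have h2 : rt 0 = 0 := by simp [rt]
  rwa [h2] at h1

/-- the choice of the scale -/
lemma exists_h [CompleteSpace X] (v : ℕ → X) (κ : ℕ → ℝ) (n0 : ℕ) (a : ℕ → ℝ) (q S3 S4 : ℝ) :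
    ∃ h : ℝ, 0 < h ∧ (∀ i < n0, h * |a i| ≤ 1) ∧ q * rt h * S3 ≤ 1 ∧
      (psi v κ n0 fun i => h * |a i|) * S4 ≤ 1 := by
  have h1 : ∀ᶠ h : ℝ in 𝓝[>] 0, ∀ i ∈ Finset.range n0, h * |a i| ≤ 1 := by
    rw [Filter.eventually_all_finset]
    intro i _
    have h2 : Tendsto (fun h : ℝ => h * |a i|) (𝓝[>] 0) (𝓝 0) := by
      have h3 : Continuous fun h : ℝ => h * |a i| := by fun_prop
      have h4 := (h3.tendsto 0).mono_left (nhdsWithin_le_nhds (s := Ioi 0))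
      rwa [zero_mul] at h4
    exact (h2.eventually (gt_mem_nhds one_pos)).mono fun h hh => hh.le
  have h2 : ∀ᶠ h : ℝ in 𝓝[>] 0, q * rt h * S3 ≤ 1 := by
    have h3 := (tendsto_rt.const_mul q).mul_const S3
    rw [mul_zero, zero_mul] at h3
    exact (h3.eventually (gt_mem_nhds one_pos)).mono fun h hh => hh.le
  have h3 : ∀ᶠ h : ℝ in 𝓝[>] 0, (psi v κ n0 fun i => h * |a i|) * S4 ≤ 1 := by
    have h4 := (tendsto_psi (v := v) (κ := κ) n0 a).mul_const S4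
    rw [zero_mul] at h4
    exact (h4.eventually (gt_mem_nhds one_pos)).mono fun h hh => hh.le
  obtain ⟨h, hh⟩ := (((eventually_mem_nhdsWithin (a := (0 : ℝ)) (s := Ioi 0)).and h1).and
    (h2.and h3)).exists
  exact ⟨h, hh.1.1, fun i hi => hh.1.2 i (Finset.mem_range.2 hi), hh.2.1, hh.2.2⟩

lemma tendsto_sum_cofinite {α β : Type*} (g : α ⊕ β → ℝ)
    (h1 : Tendsto (fun a => g (Sum.inl a)) cofinite (𝓝 0))
    (h2 : Tendsto (fun b => g (Sum.inr b)) cofinite (𝓝 0)) : Tendsto g cofinite (𝓝 0) := by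
  rw [Metric.tendsto_nhds] at h1 h2 ⊢
  intro ε hε
  have h3 := h1 ε hε
  have h4 := h2 ε hε
  rw [eventually_cofinite] at h3 h4 ⊢
  refine ((h3.image Sum.inl).union (h4.image Sum.inr)).subset ?_
  rintro (a | b) hp
  · exact Or.inl ⟨a, hp, rfl⟩
  · exact Or.inr ⟨b, hp, rfl⟩

end

/-- **Main theorem**, abstract form. -/
theorem main_aux {X : Type} [NormedAddCommGroup X] [NormedSpace ℝ X] [CompleteSpace X]
    (hX : ¬ HasAP 1 X) : ∃ C : Set X, IsCompact C ∧ Nonempty (C ≃ₜ (ℕ → Bool)) ∧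
      ∀ p : ℝ, 0 < p → ∀ (Z : Type) [NormedAddCommGroup Z] [Module ℝ Z],
        (∀ (a : ℝ) (z : Z), ‖a • z‖ = |a| ^ p * ‖z‖) → ∀ (δ : C → Z) (L : ℝ), 0 ≤ L →
        (∀ s s', ‖δ s - δ s'‖ ≤ (L * dist s s') ^ p) → ∀ β : Z →L[ℝ] X,
        (∀ s s' : C, β (δ s) - β (δ s') = (s : X) - s') → ¬ HasAP p Z := by
  obtain ⟨v, f, J, hJ, N, a, hv, hf, hx0, hT⟩ := exists_data hX
  set x : J → X := fun j => ∑ i ∈ Finset.range (N j), a j i • v i with hx
  -- a bound for the test vectors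
  obtain ⟨Cx, hCx0, hCx⟩ : ∃ Cx : ℝ, 0 ≤ Cx ∧ ∀ j, ‖x j‖ ≤ Cx := by
    have h1 := hx0.norm
    rw [norm_zero] at h1
    have h2 := h1.eventually (gt_mem_nhds one_pos)
    rw [eventually_cofinite] at h2
    obtain ⟨B, hB⟩ := (h2.image fun j => ‖x j‖).bddAbove
    refine ⟨max B 1, le_trans zero_le_one (le_max_right _ _), fun j => ?_⟩
    by_cases h : ‖x j‖ < 1
    · exact h.le.trans (le_max_right _ _)
    · exact (hB ⟨j, h, rfl⟩).trans (le_max_left _ _)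
  obtain ⟨κ, hκ0, hκ1, hκ2, hκ3⟩ := exists_kappa v f Cx hCx0
  have hκ : ∀ i, 0 ≤ κ i := fun i => (hκ0 i).le
  refine ⟨Cs v κ, isCompact_Cs hv hκ hκ1, homeo hv hκ0 hκ1 f hf, ?_⟩
  intro p hp Z _ _ hZ δ L hL0 hδ β hβ hAP
  have hcomp := isCompact_Cs (v := v) (κ := κ) hv hκ hκ1
  haveI : CompactSpace (Cs v κ) := isCompact_iff_compactSpace.1 hcomp
  obtain ⟨d, hd⟩ := hcomp.isBounded.exists_norm_le
  set d0 : ℝ := 2 * |d| + 1 with hd0
  have hd0pos : 0 < d0 := by positivity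
  have hd01 : 1 ≤ d0 := by have := abs_nonneg d; linarith
  have hdist : ∀ s ∈ Cs v κ, ∀ s' ∈ Cs v κ, ‖s - s'‖ ≤ d0 := by
    intro s hs s' hs'
    have h2 := hd s hs
    have h3 := hd s' hs'
    have h4 := norm_sub_le s s'
    have h5 := le_abs_self d
    linarith
  -- the scales
  obtain ⟨e, he⟩ := exists_injective_nat J
  let η : J → ℝ := fun j => 1 / ((e j : ℝ) + 1)
  have hηpos : ∀ j, 0 < η j := fun j => by positivity
  have hη : Tendsto η cofinite (𝓝 0) := by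
    have h1 : Tendsto e cofinite atTop := by
      rw [← Nat.cofinite_eq_atTop]
      exact he.tendsto_cofinite
    exact tendsto_one_div_add_atTop_nhds_zero_nat.comp h1
  have hh := fun j => exists_h v κ (N j) (a j) (√(‖x j‖ + η j) * rt (2 / η j))
    (∑ i ∈ Finset.range (N j), rt (κ i * ‖v i‖) * (3 * |a j i|))
    (∑ i ∈ Finset.range (N j), |a j i|)
  choose h h0 hha hh3 hh4 using hh
  let c : J ⊕ ℕ → ℝ := Sum.elim (fun j => 1 / h j) (fun l => 2 ^ l)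
  let ρ : J ⊕ ℕ → ℝ := Sum.elim (fun j => h j * (‖x j‖ + η j)) (fun l => (1 / 4) ^ l * d0)
  have hc : ∀ α, 0 < c α := by
    rintro (j | l)
    · exact one_div_pos.2 (h0 j)
    · show (0 : ℝ) < 2 ^ l
      positivity
  have hcρ : Tendsto (fun α => c α * ρ α) cofinite (𝓝 0) := by
    refine tendsto_sum_cofinite _ ?_ ?_
    · have h1 := hx0.norm.add hη
      rw [norm_zero, add_zero] at h1
      refine h1.congr fun j => ?_
      show ‖x j‖ + η j = 1 / h j * (h j * (‖x j‖ + η j))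
      rw [one_div, inv_mul_cancel_left₀ (h0 j).ne']
    · rw [Nat.cofinite_eq_atTop]
      have h1 := (tendsto_pow_atTop_nhds_zero_of_lt_one (r := (1 / 2 : ℝ)) (by norm_num)
        (by norm_num)).mul_const d0
      rw [zero_mul] at h1
      refine h1.congr fun l => ?_
      show (1 / 2) ^ l * d0 = 2 ^ l * ((1 / 4) ^ l * d0)
      rw [← mul_assoc, ← mul_pow]
      norm_num
  obtain ⟨T', hT'fin, hT'⟩ := control hp hZ δ hL0 hδ β c ρ hc hcρ hAP
    (show (0 : ℝ) < 1 / 20 by norm_num)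
  -- the finite dimensional range
  let V : Submodule ℝ X := (LinearMap.range (T' : Z →ₗ[ℝ] Z)).map (β : Z →ₗ[ℝ] X)
  have hV : FiniteDimensional ℝ V := by
    have := hT'fin
    infer_instance
  have hmemV : ∀ s, β (T' (δ s)) ∈ V := fun s => ⟨T' (δ s), ⟨δ s, rfl⟩, rfl⟩
  classical
  let φ : X → V := fun s => if hs : s ∈ Cs v κ then ⟨β (T' (δ ⟨s, hs⟩)), hmemV _⟩ else 0
  have hφ : ∀ s (hs : s ∈ Cs v κ), (V.subtypeL (φ s) : X) = β (T' (δ ⟨s, hs⟩)) := by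
    intro s hs
    show ((φ s : V) : X) = _
    simp only [φ]
    rw [dif_pos hs]
  have hφd : ∀ s (hs : s ∈ Cs v κ) s' (hs' : s' ∈ Cs v κ), ‖φ s - φ s'‖ =
      ‖(β.comp T') (δ ⟨s, hs⟩ - δ ⟨s', hs'⟩)‖ := by
    intro s hs s' hs'
    have h1 : ‖φ s - φ s'‖ = ‖(V.subtypeL (φ s) : X) - V.subtypeL (φ s')‖ := rfl
    rw [h1, hφ s hs, hφ s' hs', map_sub]
    rfl
  obtain ⟨Cb, hCb, hbb⟩ := exists_bound hp hZ (β.comp T')
  have hL : ∀ s ∈ Cs v κ, ∀ s' ∈ Cs v κ, ‖φ s - φ s'‖ ≤ (Cb * L) * ‖s - s'‖ := by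
    intro s hs s' hs'
    rw [hφd s hs s' hs']
    refine (hbb _).trans ?_
    have h2 : ‖δ ⟨s, hs⟩ - δ ⟨s', hs'⟩‖ ^ (1 / p) ≤ L * ‖s - s'‖ := by
      have h3 : 0 ≤ L * ‖s - s'‖ := mul_nonneg hL0 (norm_nonneg _)
      have h4 := hδ ⟨s, hs⟩ ⟨s', hs'⟩
      have h5 : dist (⟨s, hs⟩ : Cs v κ) ⟨s', hs'⟩ = ‖s - s'‖ := by
        rw [Subtype.dist_eq, dist_eq_norm]
      rw [h5] at h4
      calc ‖δ ⟨s, hs⟩ - δ ⟨s', hs'⟩‖ ^ (1 / p) ≤ ((L * ‖s - s'‖) ^ p) ^ (1 / p) :=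
            Real.rpow_le_rpow (norm_nonneg _) h4 (by positivity)
        _ = L * ‖s - s'‖ := by
            rw [← Real.rpow_mul h3, mul_one_div_cancel hp.ne', Real.rpow_one]
    calc Cb * ‖δ ⟨s, hs⟩ - δ ⟨s', hs'⟩‖ ^ (1 / p) ≤ Cb * (L * ‖s - s'‖) :=
          mul_le_mul_of_nonneg_left h2 hCb
      _ = _ := by ring
  have hR : ∀ (s : X) (hs : s ∈ Cs v κ) (s' : X) (hs' : s' ∈ Cs v κ),
      (V.subtypeL (φ s) - s) - (V.subtypeL (φ s') - s') =
      β (T' (δ ⟨s, hs⟩ - δ ⟨s', hs'⟩)) - β (δ ⟨s, hs⟩ - δ ⟨s', hs'⟩) := by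
    intro s hs s' hs'
    have h1 : s - s' = β (δ ⟨s, hs⟩) - β (δ ⟨s', hs'⟩) := (hβ ⟨s, hs⟩ ⟨s', hs'⟩).symm
    have h2 : (V.subtypeL (φ s) - s) - (V.subtypeL (φ s') - s') =
        (V.subtypeL (φ s) - V.subtypeL (φ s')) - (s - s') := by abel
    rw [h2, h1, hφ s hs, hφ s' hs', map_sub, map_sub, map_sub]
  have hbnd : ∀ (α : J ⊕ ℕ) (s : X) (_ : s ∈ Cs v κ) (s' : X) (_ : s' ∈ Cs v κ),
      ‖s - s'‖ ≤ ρ α →
      ‖(V.subtypeL (φ s) - s) - (V.subtypeL (φ s') - s')‖ ≤ 1 / 20 / c α := by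
    intro α s hs s' hs' hss
    rw [hR s hs s' hs']
    refine hT' α ⟨s, hs⟩ ⟨s', hs'⟩ ?_
    rw [Subtype.dist_eq, dist_eq_norm]
    exact hss
  -- Hoelder bound
  have hHol : ∀ s ∈ Cs v κ, ∀ s' ∈ Cs v κ,
      ‖(V.subtypeL (φ s) - s) - (V.subtypeL (φ s') - s')‖ ≤ (1 / 10) * √‖s - s'‖ := by
    intro s hs s' hs'
    rcases (norm_nonneg (s - s')).eq_or_lt with h1 | h1
    · have h2 : s = s' := sub_eq_zero.1 (norm_eq_zero.1 h1.symm)
      rw [h2, sub_self, norm_zero]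
      positivity
    · obtain ⟨l, hl1, hl2⟩ := exists_nat_pow_near_of_lt_one (x := ‖s - s'‖ / d0) (y := 1 / 4)
        (by positivity) (by rw [div_le_one hd0pos]; exact hdist s hs s' hs') (by norm_num)
        (by norm_num)
      have h2 := hbnd (Sum.inr l) s hs s' hs' (by
        show ‖s - s'‖ ≤ (1 / 4) ^ l * d0
        rwa [div_le_iff₀ hd0pos] at hl2)
      refine h2.trans ?_
      show (1 / 20 : ℝ) / 2 ^ l ≤ _
      have h3 : (1 / 4 : ℝ) ^ (l + 1) ≤ ‖s - s'‖ := by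
        rw [lt_div_iff₀ hd0pos] at hl1
        have : (0 : ℝ) < (1 / 4) ^ (l + 1) := by positivity
        nlinarith
      have h4 : (1 / 2 : ℝ) ^ (l + 1) ≤ √‖s - s'‖ := by
        refine Real.le_sqrt_of_sq_le (le_trans (le_of_eq ?_) h3)
        rw [← pow_mul, mul_comm, pow_mul]
        norm_num
      have h5 : (1 / 20 : ℝ) / 2 ^ l = (1 / 10) * (1 / 2) ^ (l + 1) := by
        rw [pow_succ, one_div_pow]
        ring
      rw [h5]
      exact mul_le_mul_of_nonneg_left h4 (by norm_num)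
  obtain ⟨T, hTlin⟩ := linearize hv hκ hκ1 f hf hκ2 V.subtypeL φ (mul_nonneg hCb hL0) hL
  obtain ⟨j, hj⟩ := hT (V.subtypeL.comp T) (by
    have h1 : LinearMap.range ((V.subtypeL.comp T : X →L[ℝ] X) : X →ₗ[ℝ] X) ≤ V := by
      rintro _ ⟨y, rfl⟩
      exact (T y).2
    exact Submodule.finiteDimensional_of_le h1)
  have hest := hTlin (N j) (a j) (h j) (1 / 10) (η j) (h0 j) (by norm_num) (hηpos j) (hha j) hHol
    (fun s hs s' hs' hss => by
      refine (hbnd (Sum.inl j) s hs s' hs' hss).trans ?_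
      show 1 / 20 / (1 / h j) ≤ 1 / 10 * h j
      have := h0 j
      rw [div_div_eq_mul_div, div_one]
      linarith)
  have hai : ∀ i < N j, |a j i| ≤ ‖f i‖ * ‖x j‖ := by
    intro i hi
    have h1 : f i (x j) = a j i := by
      show f i (∑ i ∈ Finset.range (N j), a j i • v i) = _
      rw [map_sum, Finset.sum_eq_single i]
      · rw [map_smul, hf, if_pos rfl, smul_eq_mul, mul_one]
      · intro l _ hl
        rw [map_smul, hf, if_neg hl.symm, smul_zero]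
      · intro h; exact absurd (Finset.mem_range.2 hi) h
    rw [← h1, ← Real.norm_eq_abs]
    exact (f i).le_opNorm (x j)
  obtain ⟨hA1, hA2⟩ := hκ3 (N j) (a j) ‖x j‖ (norm_nonneg _) (hCx j) hai
  have hB1 := hh3 j
  have hB2 := hh4 j
  change ‖(V.subtypeL.comp T) (x j) - x j‖ ≤ _ at hest
  change 1 < ‖(V.subtypeL.comp T) (x j) - x j‖ at hj
  have hB1' : (√(‖x j‖ + η j) * rt (h j) * rt (2 / η j)) *
      ∑ i ∈ Finset.range (N j), rt (κ i * ‖v i‖) * (3 * |a j i|) ≤ 1 := by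
    refine le_trans (le_of_eq ?_) hB1
    ring
  set q1 := (√(‖x j‖ + η j) * rt (h j) * rt (2 / η j)) *
      ∑ i ∈ Finset.range (N j), rt (κ i * ‖v i‖) * (3 * |a j i|) with hq1
  set q2 := ∑ i ∈ Finset.range (N j), √(κ i * ‖v i‖) * (6 * |a j i|) with hq2
  set q3 := psi v κ (N j) fun i => h j * |a j i| with hq3
  set q4 := ∑ i ∈ Finset.range (N j), |a j i| with hq4
  set q5 := ∑ i ∈ Finset.range (N j), κ i * ‖v i‖ * |a j i| with hq5
  have hest' : ‖(V.subtypeL.comp T) (x j) - x j‖ ≤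
      1 / 10 * (1 + (q2 + q1)) + 2 * (1 / 10 * q3) * q4 + q5 := hest
  nlinarith

end Pool.Agent.Y53.FP
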