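import Pool.Agent.H548R3.PDefs

/-!
Test vectors for the failure of the approximation property of a Banach space.
-/

set_option autoImplicit false
set_option linter.unusedSectionVars false

open Set Filter Topology
open Pool.Agent.H548R3.PFree

namespace Pool.Agent.Y53.FP

section

variable {X : Type} [NormedAddCommGroup X] [NormedSpace ℝ X]

/-- one step of the splitting of a compact set -/
lemma split_step (K : Set X) (hK : IsCompact K) (r : ℝ) (hr : 0 < r) :
    ∃ (F : Set X) (K' : Set X), F.Finite ∧ F ⊆ K ∧ IsCompact K' ∧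
      K' ⊆ Metric.closedBall 0 r ∧ ∀ z ∈ K, ∃ f ∈ F, z - f ∈ K' := by
  obtain ⟨F, hFK, hFfin, hF⟩ := hK.finite_cover_balls hr
  refine ⟨F, ⋃ f ∈ F, (fun z => z - f) '' (K ∩ Metric.closedBall f r), hFfin, hFK, ?_, ?_, ?_⟩
  · refine hFfin.isCompact_biUnion fun f _ => ?_
    exact (hK.inter_right Metric.isClosed_closedBall).image (by fun_prop)
  · intro w hw
    obtain ⟨f, _, z, ⟨_, hz⟩, rfl⟩ := mem_iUnion₂.1 hw
    rw [mem_closedBall_zero_iff]
    rwa [Metric.mem_closedBall, dist_eq_norm] at hz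
  · intro z hz
    obtain ⟨f, hf, hzf⟩ := mem_iUnion₂.1 (hF hz)
    exact ⟨f, hf, mem_iUnion₂.2 ⟨f, hf, z, ⟨hz, Metric.ball_subset_closedBall hzf⟩, rfl⟩⟩

/-- a null family testing the approximation property -/
theorem exists_null (hX : ¬ HasAP 1 X) : ∃ (J : Type) (_ : Countable J) (x : J → X),
    Tendsto x cofinite (𝓝 0) ∧
    ∀ T : X →L[ℝ] X, FiniteDimensional ℝ (LinearMap.range (T : X →ₗ[ℝ] X)) →
      ∃ j, 1 < ‖T (x j) - x j‖ := by
  unfold HasAP at hX
  push Not at hX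
  obtain ⟨K, hK, ε, hε, hT⟩ := hX
  have hT' : ∀ T : X →L[ℝ] X, FiniteDimensional ℝ (LinearMap.range (T : X →ₗ[ℝ] X)) →
      ∃ z ∈ K, ε ≤ ‖T z - z‖ := by
    intro T hTf
    obtain ⟨z, hz, h⟩ := hT T hTf
    refine ⟨z, hz, ?_⟩
    unfold pnorm at h
    rwa [div_one, Real.rpow_one] at h
  -- the compact sets
  have step : ∀ (n : ℕ) (K : {K : Set X // IsCompact K}), ∃ (F : Set X)
      (K' : {K : Set X // IsCompact K}), F.Finite ∧ F ⊆ K.1 ∧
      K'.1 ⊆ Metric.closedBall 0 ((1 / 4) ^ (n + 1)) ∧ ∀ z ∈ K.1, ∃ f ∈ F, z - f ∈ K'.1 := by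
    intro n K
    obtain ⟨F, K', h1, h2, h3, h4, h5⟩ := split_step K.1 K.2 ((1 / 4) ^ (n + 1)) (by positivity)
    exact ⟨F, ⟨K', h3⟩, h1, h2, h4, h5⟩
  choose F0 K0 hFin hFsub hball hcov using step
  let Kn : ℕ → {K : Set X // IsCompact K} := fun n => Nat.rec ⟨K, hK⟩ (fun n K => K0 n K) n
  have hKn0 : (Kn 0).1 = K := rfl
  have hKns : ∀ n, Kn (n + 1) = K0 n (Kn n) := fun n => rfl
  let F : ℕ → Set X := fun n => F0 n (Kn n)
  have hF : ∀ n, (F n).Finite := fun n => hFin n (Kn n)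
  have hKball : ∀ n, (Kn (n + 1)).1 ⊆ Metric.closedBall 0 ((1 / 4) ^ (n + 1)) := fun n =>
    hball n (Kn n)
  have hFball : ∀ n, ∀ z ∈ F (n + 1), ‖z‖ ≤ (1 / 4) ^ (n + 1) := by
    intro n z hz
    have h1 := hKball n (hFsub (n + 1) (Kn (n + 1)) hz)
    rwa [mem_closedBall_zero_iff] at h1
  set c : ℝ := 2 / ε with hc
  have hc0 : 0 < c := by positivity
  have hFc : ∀ n, Finite (F n) := fun n => (hF n).to_subtype
  refine ⟨Σ n, F n, inferInstance, fun p => (c * 2 ^ (p.1 + 1)) • (p.2 : X), ?_, ?_⟩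
  · rw [Metric.tendsto_nhds]
    intro δ hδ
    rw [eventually_cofinite]
    have h1 : Tendsto (fun n : ℕ => c * 2 * (1 / 2) ^ n) atTop (𝓝 0) := by
      have := (tendsto_pow_atTop_nhds_zero_of_lt_one (r := (1 / 2 : ℝ)) (by norm_num)
        (by norm_num)).const_mul (c * 2)
      rwa [mul_zero] at this
    obtain ⟨n1, hn1⟩ := (h1.eventually (gt_mem_nhds hδ)).exists_forall_of_atTop
    refine Set.Finite.subset (s := ⋃ n ∈ Finset.range (n1 + 1),
      Set.range (fun f : F n => (⟨n, f⟩ : Σ n, F n))) ?_ ?_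
    · exact (Finset.range (n1 + 1)).finite_toSet.biUnion fun n _ => Set.finite_range _
    · rintro ⟨n, f⟩ hnf
      by_contra hcon
      refine hnf ?_
      have hn : ¬ n < n1 + 1 := fun h => hcon (mem_iUnion₂.2 ⟨n, Finset.mem_range.2 h, f, rfl⟩)
      obtain ⟨m, rfl⟩ : ∃ m, n = m + 1 := ⟨n - 1, by omega⟩
      rw [dist_zero_right, norm_smul, Real.norm_of_nonneg (by positivity)]
      have h2 := hFball m f f.2
      have h3 := hn1 (m + 1) (by omega)
      refine lt_of_le_of_lt ?_ h3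
      calc c * 2 ^ (m + 1 + 1) * ‖(f : X)‖ ≤ c * 2 ^ (m + 1 + 1) * (1 / 4) ^ (m + 1) :=
            mul_le_mul_of_nonneg_left h2 (by positivity)
        _ = c * 2 * (1 / 2) ^ (m + 1) := by
            have h4 : (1 / 2 : ℝ) ^ (m + 1) = 2 ^ (m + 1) * (1 / 4) ^ (m + 1) := by
              rw [← mul_pow]; norm_num
            rw [h4, pow_succ 2 (m + 1)]
            ring
  · intro T hTf
    by_contra hcon
    push Not at hcon
    obtain ⟨z, hz, hzT⟩ := hT' T hTf
    -- bound on the pieces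
    have h1 : ∀ n, ∀ f ∈ F n, ‖T f - f‖ ≤ (ε / 2) * (1 / 2) ^ (n + 1) := by
      intro n f hf
      have h2 := hcon ⟨n, ⟨f, hf⟩⟩
      simp only [map_smul] at h2
      rw [← smul_sub, norm_smul, Real.norm_of_nonneg (by positivity)] at h2
      have h3 : (0 : ℝ) < c * 2 ^ (n + 1) := by positivity
      rw [mul_comm, ← le_div_iff₀ h3] at h2
      refine h2.trans (le_of_eq ?_)
      rw [hc, one_div, mul_inv, inv_div, one_div, inv_pow]
    have h2 : ∀ n, ∃ y ∈ (Kn n).1, ‖T z - z‖ ≤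
        (ε / 2) * (1 - (1 / 2) ^ n) + ‖T y - y‖ := by
      intro n
      induction n with
      | zero => exact ⟨z, hz, by simp⟩
      | succ n ih =>
        obtain ⟨y, hy, hyb⟩ := ih
        obtain ⟨f, hf, hfy⟩ := hcov n (Kn n) y hy
        refine ⟨y - f, hfy, hyb.trans ?_⟩
        have h3 := h1 n f hf
        have h4 : T y - y = (T f - f) + (T (y - f) - (y - f)) := by
          rw [map_sub]; abel
        have h5 : ‖T y - y‖ ≤ ‖T f - f‖ + ‖T (y - f) - (y - f)‖ := by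
          rw [h4]; exact norm_add_le _ _
        have h6 : (ε / 2) * (1 - (1 / 2) ^ (n + 1)) =
            (ε / 2) * (1 - (1 / 2) ^ n) + (ε / 2) * (1 / 2) ^ (n + 1) := by
          rw [pow_succ]; ring
        rw [h6]
        linarith
    have h3 : Tendsto (fun n : ℕ => ε / 2 + (‖T‖ + 1) * (1 / 4) ^ (n + 1)) atTop
        (𝓝 (ε / 2 + (‖T‖ + 1) * 0)) := by
      refine tendsto_const_nhds.add (Tendsto.const_mul _ ?_)
      exact (tendsto_pow_atTop_nhds_zero_of_lt_one (r := (1 / 4 : ℝ)) (by norm_num)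
        (by norm_num)).comp (tendsto_add_atTop_nat 1)
    have h4 : ε ≤ ε / 2 + (‖T‖ + 1) * 0 := by
      refine ge_of_tendsto h3 (Eventually.of_forall fun n => ?_)
      obtain ⟨y, hy, hyb⟩ := h2 (n + 1)
      have h5 := hKball n hy
      rw [mem_closedBall_zero_iff] at h5
      have h6 : ‖T y - y‖ ≤ (‖T‖ + 1) * (1 / 4) ^ (n + 1) := by
        calc ‖T y - y‖ ≤ ‖T y‖ + ‖y‖ := norm_sub_le _ _
          _ ≤ ‖T‖ * ‖y‖ + ‖y‖ := add_le_add (T.le_opNorm y) le_rfl
          _ = (‖T‖ + 1) * ‖y‖ := by ring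
          _ ≤ (‖T‖ + 1) * (1 / 4) ^ (n + 1) :=
            mul_le_mul_of_nonneg_left h5 (by positivity)
      have h7 : (0 : ℝ) < (1 / 2) ^ (n + 1) := by positivity
      have h8 : (ε / 2) * (1 - (1 / 2) ^ (n + 1)) ≤ ε / 2 := by nlinarith
      linarith
    linarith

end

end Pool.Agent.Y53.FP
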